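import Mathlib

set_option autoImplicit false
set_option linter.unusedSectionVars false
set_option linter.unusedVariables false

namespace Pool.Agent.Lib_ae0d71

/-- The algebra: a graded Artinian Gorenstein algebra over `ℚ` with Hilbert function
`(1, 6, 6, 1)`. Coordinate `0` is the degree zero part, `1, …, 6` degree one, `7, …, 12` degree two,
`13` degree three. -/
def A14 : Type := Fin 14 → ℚ

namespace A14

noncomputable instance : AddCommGroup A14 := inferInstanceAs (AddCommGroup (Fin 14 → ℚ))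
noncomputable instance : Module ℚ A14 := inferInstanceAs (Module ℚ (Fin 14 → ℚ))
instance : Module.Finite ℚ A14 := inferInstanceAs (Module.Finite ℚ (Fin 14 → ℚ))

/-- multiplication -/
def mul' (p q : A14) : A14 :=
  ![p 0 * q 0,
    p 0 * q 1 + p 1 * q 0,
    p 0 * q 2 + p 2 * q 0,
    p 0 * q 3 + p 3 * q 0,
    p 0 * q 4 + p 4 * q 0,
    p 0 * q 5 + p 5 * q 0,
    p 0 * q 6 + p 6 * q 0,
    p 0 * q 7 + p 7 * q 0 + (p 2 * q 5 + p 5 * q 2) + p 3 * q 3 + (p 4 * q 6 + p 6 * q 4),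
    p 0 * q 8 + p 8 * q 0 + (p 1 * q 5 + p 5 * q 1) - 2 * (p 3 * q 3) - (p 4 * q 6 + p 6 * q 4),
    p 0 * q 9 + p 9 * q 0 + (p 1 * q 3 + p 3 * q 1) - 2 * (p 2 * q 3 + p 3 * q 2) - p 6 * q 6,
    p 0 * q 10 + p 10 * q 0 + (p 1 * q 6 + p 6 * q 1) - (p 2 * q 6 + p 6 * q 2) + p 4 * q 4,
    p 0 * q 11 + p 11 * q 0 + (p 1 * q 2 + p 2 * q 1),
    p 0 * q 12 + p 12 * q 0 + (p 1 * q 4 + p 4 * q 1) - (p 2 * q 4 + p 4 * q 2)
      - (p 3 * q 6 + p 6 * q 3),
    p 0 * q 13 + p 13 * q 0 + (p 1 * q 7 + p 7 * q 1) + (p 2 * q 8 + p 8 * q 2)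
      + (p 3 * q 9 + p 9 * q 3) + (p 4 * q 10 + p 10 * q 4) + (p 5 * q 11 + p 11 * q 5)
      + (p 6 * q 12 + p 12 * q 6)]

instance : Mul A14 := ⟨mul'⟩
instance : One A14 := ⟨![1, 0, 0, 0, 0, 0, 0, 0, 0, 0, 0, 0, 0, 0]⟩

theorem ext14 {p q : A14} (h0 : p 0 = q 0) (h1 : p 1 = q 1) (h2 : p 2 = q 2) (h3 : p 3 = q 3)
    (h4 : p 4 = q 4) (h5 : p 5 = q 5) (h6 : p 6 = q 6) (h7 : p 7 = q 7) (h8 : p 8 = q 8)
    (h9 : p 9 = q 9) (h10 : p 10 = q 10) (h11 : p 11 = q 11) (h12 : p 12 = q 12)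
    (h13 : p 13 = q 13) : p = q := by
  funext i
  fin_cases i <;> assumption

@[simp] theorem add_ap (p q : A14) (i : Fin 14) : (p + q) i = p i + q i := rfl
@[simp] theorem neg_ap (p : A14) (i : Fin 14) : (-p) i = -p i := rfl
@[simp] theorem sub_ap (p q : A14) (i : Fin 14) : (p - q) i = p i - q i := rfl
@[simp] theorem zero_ap (i : Fin 14) : (0 : A14) i = 0 := rfl
@[simp] theorem smul_ap (c : ℚ) (p : A14) (i : Fin 14) : (c • p) i = c * p i := rfl
@[simp] theorem one_0 : (1 : A14) 0 = 1 := rfl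
@[simp] theorem one_1 : (1 : A14) 1 = 0 := rfl
@[simp] theorem one_2 : (1 : A14) 2 = 0 := rfl
@[simp] theorem one_3 : (1 : A14) 3 = 0 := rfl
@[simp] theorem one_4 : (1 : A14) 4 = 0 := rfl
@[simp] theorem one_5 : (1 : A14) 5 = 0 := rfl
@[simp] theorem one_6 : (1 : A14) 6 = 0 := rfl
@[simp] theorem one_7 : (1 : A14) 7 = 0 := rfl
@[simp] theorem one_8 : (1 : A14) 8 = 0 := rfl
@[simp] theorem one_9 : (1 : A14) 9 = 0 := rfl
@[simp] theorem one_10 : (1 : A14) 10 = 0 := rfl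
@[simp] theorem one_11 : (1 : A14) 11 = 0 := rfl
@[simp] theorem one_12 : (1 : A14) 12 = 0 := rfl
@[simp] theorem one_13 : (1 : A14) 13 = 0 := rfl
@[simp] theorem mul_0 (p q : A14) : (p * q) 0 = p 0 * q 0 := rfl
@[simp] theorem mul_1 (p q : A14) : (p * q) 1 = p 0 * q 1 + p 1 * q 0 := rfl
@[simp] theorem mul_2 (p q : A14) : (p * q) 2 = p 0 * q 2 + p 2 * q 0 := rfl
@[simp] theorem mul_3 (p q : A14) : (p * q) 3 = p 0 * q 3 + p 3 * q 0 := rfl
@[simp] theorem mul_4 (p q : A14) : (p * q) 4 = p 0 * q 4 + p 4 * q 0 := rfl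
@[simp] theorem mul_5 (p q : A14) : (p * q) 5 = p 0 * q 5 + p 5 * q 0 := rfl
@[simp] theorem mul_6 (p q : A14) : (p * q) 6 = p 0 * q 6 + p 6 * q 0 := rfl
@[simp] theorem mul_7 (p q : A14) : (p * q) 7 =
    p 0 * q 7 + p 7 * q 0 + (p 2 * q 5 + p 5 * q 2) + p 3 * q 3 + (p 4 * q 6 + p 6 * q 4) := rfl
@[simp] theorem mul_8 (p q : A14) : (p * q) 8 =
    p 0 * q 8 + p 8 * q 0 + (p 1 * q 5 + p 5 * q 1) - 2 * (p 3 * q 3) - (p 4 * q 6 + p 6 * q 4) :=
  rfl
@[simp] theorem mul_9 (p q : A14) : (p * q) 9 =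
    p 0 * q 9 + p 9 * q 0 + (p 1 * q 3 + p 3 * q 1) - 2 * (p 2 * q 3 + p 3 * q 2) - p 6 * q 6 :=
  rfl
@[simp] theorem mul_10 (p q : A14) : (p * q) 10 =
    p 0 * q 10 + p 10 * q 0 + (p 1 * q 6 + p 6 * q 1) - (p 2 * q 6 + p 6 * q 2) + p 4 * q 4 := rfl
@[simp] theorem mul_11 (p q : A14) : (p * q) 11 =
    p 0 * q 11 + p 11 * q 0 + (p 1 * q 2 + p 2 * q 1) := rfl
@[simp] theorem mul_12 (p q : A14) : (p * q) 12 =
    p 0 * q 12 + p 12 * q 0 + (p 1 * q 4 + p 4 * q 1) - (p 2 * q 4 + p 4 * q 2)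
      - (p 3 * q 6 + p 6 * q 3) := rfl
@[simp] theorem mul_13 (p q : A14) : (p * q) 13 =
    p 0 * q 13 + p 13 * q 0 + (p 1 * q 7 + p 7 * q 1) + (p 2 * q 8 + p 8 * q 2)
      + (p 3 * q 9 + p 9 * q 3) + (p 4 * q 10 + p 10 * q 4) + (p 5 * q 11 + p 11 * q 5)
      + (p 6 * q 12 + p 12 * q 6) := rfl

theorem mul_comm' (p q : A14) : p * q = q * p := by
  apply ext14 <;> simp <;> ring

theorem mul_assoc' (p q r : A14) : p * q * r = p * (q * r) := by
  apply ext14 <;> simp <;> ring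

theorem one_mul' (p : A14) : 1 * p = p := by
  apply ext14 <;> simp

theorem left_distrib' (p q r : A14) : p * (q + r) = p * q + p * r := by
  apply ext14 <;> simp <;> ring

noncomputable instance : CommRing A14 :=
  { (inferInstance : AddCommGroup A14) with
    mul := (· * ·)
    one := 1
    mul_assoc := mul_assoc'
    mul_comm := mul_comm'
    one_mul := one_mul'
    mul_one := fun p => by rw [mul_comm', one_mul']
    left_distrib := left_distrib'
    right_distrib := fun p q r => by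
      rw [mul_comm', left_distrib', mul_comm' r p, mul_comm' r q]
    zero_mul := fun p => by apply ext14 <;> simp
    mul_zero := fun p => by apply ext14 <;> simp }

noncomputable instance : Algebra ℚ A14 :=
  Algebra.ofModule
    (fun c p q => by apply ext14 <;> simp <;> ring)
    (fun c p q => by apply ext14 <;> simp <;> ring)

end A14

end Pool.Agent.Lib_ae0d71
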