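import Pool.Agent.Lib_ae0d71.Defs

set_option autoImplicit false
set_option linter.unusedSectionVars false
set_option linter.unusedVariables false

namespace Pool.Agent.Lib_ae0d71

open IsLocalRing Filter Topology
open scoped ENNReal NNReal

variable {R : Type} [CommRing R] [IsLocalRing R] {M : Type} [AddCommGroup M] [Module R M]

theorem cx_le_three (h : ∀ n, betti R M n ≤ ((n + 1) * (n + 3) : ℕ)) : cx R M ≤ 3 := by
  refine sInf_le ⟨3, rfl, 8, by norm_num, ?_⟩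
  intro n hn
  have h1 : ((betti R M n : ℕ∞) : ℝ≥0∞) ≤ (((n + 1) * (n + 3) : ℕ) : ℝ≥0∞) := by
    have := ENat.toENNReal_le.2 (h n)
    simpa using this
  have h2 : ((n + 1) * (n + 3) : ℕ) ≤ 8 * n ^ 2 := by
    nlinarith
  have h3 : (((n + 1) * (n + 3) : ℕ) : ℝ≥0∞) ≤ ((8 * n ^ 2 : ℕ) : ℝ≥0∞) := Nat.cast_le.2 h2
  refine (h1.trans h3).trans (le_of_eq ?_)
  have h4 : ((3 : ℕ) : ℤ) - 1 = ((2 : ℕ) : ℤ) := by norm_num
  rw [h4, zpow_natCast]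
  push_cast
  rfl

theorem cx_eq_top (h : ∀ n, ∃ b : ℕ, betti R M n = b ∧ 3 * 2 ^ n ≤ b * 4) : cx R M = ⊤ := by
  unfold cx
  rw [sInf_eq_top]
  rintro e ⟨d, rfl, c, hc, hb⟩
  exfalso
  have key : ∀ n : ℕ, 1 ≤ n → (3 : ℝ) * 2 ^ n ≤ 4 * (c * n ^ d) := by
    intro n hn
    obtain ⟨b, hb1, hb2⟩ := h n
    have h1 := hb n hn
    rw [hb1, ENat.toENNReal_coe] at h1
    have hn0 : (n : ℝ≥0∞) ≠ 0 := by
      rw [Nat.cast_ne_zero]; omega
    have hn1 : (n : ℝ≥0∞) ≠ ∞ := ENNReal.natCast_ne_top n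
    have h2 : (n : ℝ≥0∞) ^ ((d : ℤ) - 1) ≤ (n : ℝ≥0∞) ^ d := by
      have h3 : (n : ℝ≥0∞) ^ d = (n : ℝ≥0∞) ^ ((d : ℤ) - 1) * (n : ℝ≥0∞) := by
        have h5 : (n : ℝ≥0∞) ^ ((d : ℤ) - 1 + 1) =
            (n : ℝ≥0∞) ^ ((d : ℤ) - 1) * (n : ℝ≥0∞) ^ (1 : ℤ) := ENNReal.zpow_add hn0 hn1 _ _
        rw [sub_add_cancel, zpow_natCast, zpow_one] at h5
        exact h5
      rw [h3]
      have h6 : (1 : ℝ≥0∞) ≤ n := by exact_mod_cast hn
      calc (n : ℝ≥0∞) ^ ((d : ℤ) - 1) = (n : ℝ≥0∞) ^ ((d : ℤ) - 1) * 1 := (mul_one _).symm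
        _ ≤ _ := mul_le_mul_right h6 _
    have h3 : (b : ℝ≥0∞) ≤ (c : ℝ≥0∞) * (n : ℝ≥0∞) ^ d := h1.trans (mul_le_mul_right h2 _)
    have h4 : (b : ℝ≥0) ≤ c * (n : ℝ≥0) ^ d := by exact_mod_cast h3
    have h5 : (b : ℝ) ≤ c * (n : ℝ) ^ d := by exact_mod_cast h4
    have h6 : (3 : ℝ) * 2 ^ n ≤ b * 4 := by exact_mod_cast hb2
    linarith
  have hlim := tendsto_pow_const_div_const_pow_of_one_lt d (r := (2 : ℝ)) (by norm_num)
  have hpos : (0 : ℝ) < 3 / (4 * (c + 1)) := by positivity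
  have hev := (hlim.eventually (gt_mem_nhds hpos)).and (eventually_ge_atTop 1)
  obtain ⟨n, hn, hn1⟩ := hev.exists
  have h1 := key n hn1
  have h2 : (0 : ℝ) < 2 ^ n := by positivity
  rw [div_lt_div_iff₀ h2 (by positivity)] at hn
  have h3 : (0 : ℝ) ≤ (n : ℝ) ^ d := by positivity
  nlinarith

theorem curv_le_one (h : ∀ n, betti R M n ≤ ((n + 1) * (n + 3) : ℕ)) : curv R M ≤ 1 := by
  have hv : Tendsto (fun n : ℕ => ENNReal.ofReal ((n : ℝ) ^ (3 / (1 * (n : ℝ) + 0)))) atTop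
      (𝓝 1) := by
    have h1 := (tendsto_rpow_div_mul_add 3 1 0 (by norm_num)).comp
      (tendsto_natCast_atTop_atTop (R := ℝ))
    have h2 := ENNReal.tendsto_ofReal h1
    rw [ENNReal.ofReal_one] at h2
    exact h2
  unfold curv
  rw [← hv.limsup_eq]
  refine limsup_le_limsup ?_ (by isBoundedDefault) (by isBoundedDefault)
  filter_upwards [eventually_ge_atTop 3] with n hn
  have h1 : ((betti R M n : ℕ∞) : ℝ≥0∞) ≤ (((n + 1) * (n + 3) : ℕ) : ℝ≥0∞) := by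
    have := ENat.toENNReal_le.2 (h n)
    simpa using this
  have h2 : ((n + 1) * (n + 3) : ℕ) ≤ n ^ 3 := by
    obtain ⟨m, rfl⟩ : ∃ m, n = m + 3 := ⟨n - 3, by omega⟩
    ring_nf
    nlinarith
  have h3 : (((n + 1) * (n + 3) : ℕ) : ℝ≥0∞) ≤ ((n ^ 3 : ℕ) : ℝ≥0∞) := Nat.cast_le.2 h2
  refine (ENNReal.rpow_le_rpow (h1.trans h3) (by positivity)).trans (le_of_eq ?_)
  have hn0 : (0 : ℝ) < n := by
    have : 0 < n := by omega
    exact_mod_cast this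
  have h4 : ((n ^ 3 : ℕ) : ℝ≥0∞) = ENNReal.ofReal ((n : ℝ) ^ (3 : ℝ)) := by
    rw [← ENNReal.ofReal_natCast]
    congr 1
    push_cast
    norm_cast
  rw [h4, ENNReal.ofReal_rpow_of_nonneg (by positivity) (by positivity), ← Real.rpow_mul hn0.le]
  congr 2
  rw [one_mul, add_zero, div_eq_mul_inv]

theorem two_le_curv (h : ∀ n, ∃ b : ℕ, betti R M n = b ∧ 3 * 2 ^ n ≤ b * 4) :
    2 ≤ curv R M := by
  have hv : Tendsto (fun n : ℕ => ENNReal.ofReal (2 * (3 / 4 : ℝ) ^ ((n : ℝ)⁻¹))) atTop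
      (𝓝 2) := by
    have h1 : Tendsto (fun n : ℕ => (3 / 4 : ℝ) ^ ((n : ℝ)⁻¹)) atTop (𝓝 ((3 / 4 : ℝ) ^ (0 : ℝ))) :=
      ((Real.continuous_const_rpow (a := (3 / 4 : ℝ)) (by norm_num)).tendsto 0).comp
        tendsto_inv_atTop_nhds_zero_nat
    rw [Real.rpow_zero] at h1
    have h2 := ENNReal.tendsto_ofReal (h1.const_mul 2)
    rw [mul_one] at h2
    have h3 : ENNReal.ofReal 2 = 2 := by norm_num
    rw [h3] at h2
    exact h2
  unfold curv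
  rw [← hv.limsup_eq]
  refine limsup_le_limsup ?_ (by isBoundedDefault) (by isBoundedDefault)
  filter_upwards [eventually_ge_atTop 1] with n hn
  obtain ⟨b, hb1, hb2⟩ := h n
  rw [hb1, ENat.toENNReal_coe]
  have hn0 : (n : ℝ) ≠ 0 := by
    have : n ≠ 0 := by omega
    exact_mod_cast this
  have h6 : (3 : ℝ) * 2 ^ n ≤ b * 4 := by exact_mod_cast hb2
  have h7 : (2 : ℝ) * (3 / 4 : ℝ) ^ ((n : ℝ)⁻¹) = ((3 / 4) * 2 ^ n) ^ ((n : ℝ)⁻¹) := by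
    rw [Real.mul_rpow (by norm_num) (by positivity), ← Real.rpow_natCast 2 n,
      ← Real.rpow_mul (by norm_num), mul_inv_cancel₀ hn0, Real.rpow_one, mul_comm]
  rw [h7, ← ENNReal.ofReal_rpow_of_nonneg (by positivity) (by positivity)]
  apply ENNReal.rpow_le_rpow _ (by positivity)
  rw [← ENNReal.ofReal_natCast]
  apply ENNReal.ofReal_le_ofReal
  linarith

end Pool.Agent.Lib_ae0d71
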