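import Pool.Agent.Lib_ae0d71.Local

set_option autoImplicit false
set_option linter.unusedSectionVars false
set_option linter.unusedVariables false

namespace Pool.Agent.Lib_ae0d71

open Function IsLocalRing

namespace A14

/-- the differentials of the minimal resolution with constant Betti numbers -/
noncomputable def dt (t : ℚ) : (Fin 2 → A14) →ₗ[A14] (Fin 2 → A14) where
  toFun w := ![e 1 * w 0 + (t • e 3) * w 1, e 4 * w 0 + e 2 * w 1]
  map_add' u v := by
    funext i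
    fin_cases i
    · show e 1 * (u 0 + v 0) + (t • e 3) * (u 1 + v 1) =
        (e 1 * u 0 + (t • e 3) * u 1) + (e 1 * v 0 + (t • e 3) * v 1)
      ring
    · show e 4 * (u 0 + v 0) + e 2 * (u 1 + v 1) =
        (e 4 * u 0 + e 2 * u 1) + (e 4 * v 0 + e 2 * v 1)
      ring
  map_smul' r u := by
    funext i
    fin_cases i
    · show e 1 * (r * u 0) + (t • e 3) * (r * u 1) = r * (e 1 * u 0 + (t • e 3) * u 1)
      ring
    · show e 4 * (r * u 0) + e 2 * (r * u 1) = r * (e 4 * u 0 + e 2 * u 1)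
      ring

theorem dt_0 (t : ℚ) (w : Fin 2 → A14) : dt t w 0 = e 1 * w 0 + (t • e 3) * w 1 := rfl
theorem dt_1 (t : ℚ) (w : Fin 2 → A14) : dt t w 1 = e 4 * w 0 + e 2 * w 1 := rfl

theorem dt_comp (t : ℚ) (w : Fin 2 → A14) : dt t (dt (2 * t) w) = 0 := by
  funext i
  fin_cases i
  · show dt t (dt (2 * t) w) 0 = 0
    rw [dt_0, dt_0, dt_1]
    apply ext14 <;> simp [e_ap] <;> ring
  · show dt t (dt (2 * t) w) 1 = 0
    rw [dt_1, dt_0, dt_1]
    apply ext14 <;> simp [e_ap]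

theorem ker_dt (t : ℚ) (h0 : t ≠ 0) (h1 : t ≠ 1) (h2 : 2 * t ≠ 1) :
    LinearMap.ker (dt t) = LinearMap.range (dt (2 * t)) := by
  apply le_antisymm
  · intro w hw
    rw [LinearMap.mem_ker] at hw
    have hA : ∀ i, (e 1 * w 0 + (t • e 3) * w 1) i = 0 := fun i => by
      have := congrFun hw 0
      rw [dt_0] at this
      rw [this]; rfl
    have hB : ∀ i, (e 4 * w 0 + e 2 * w 1) i = 0 := fun i => by
      have := congrFun hw 1
      rw [dt_1] at this
      rw [this]; rfl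
    have a1 := hA 1
    have a3 := hA 3
    have a7 := hA 7
    have a8 := hA 8
    have a9 := hA 9
    have a10 := hA 10
    have a11 := hA 11
    have a12 := hA 12
    have a13 := hA 13
    have b7 := hB 7
    have b8 := hB 8
    have b9 := hB 9
    have b10 := hB 10
    have b11 := hB 11
    have b12 := hB 12
    have b13 := hB 13
    simp [e_ap] at a1 a3 a7 a8 a9 a10 a11 a12 a13 b7 b8 b9 b10 b11 b12 b13
    have a3' : w 1 0 = 0 := a3.resolve_left h0
    have a9' : w 0 3 = 2 * t * w 1 2 := by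
      rw [b11] at a9
      linarith
    have a8' : w 0 5 = 0 := by
      rw [b9] at a8
      linarith
    obtain ⟨c, hc⟩ : ∃ c : ℚ, 2 * t * c = w 0 7 :=
      ⟨w 0 7 / (2 * t), by field_simp⟩
    have h3 : 1 - 2 * t ≠ 0 := fun h => h2 (by linarith)
    obtain ⟨g, hg⟩ : ∃ g : ℚ, (1 - 2 * t) * g = w 0 12 - w 1 10 :=
      ⟨(w 0 12 - w 1 10) / (1 - 2 * t), by field_simp⟩
    have h4 : t - 1 ≠ 0 := fun h => h1 (by linarith)
    have h6 : w 1 6 = 0 := by
      have : (t - 1) * w 1 6 = 0 := by linarith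
      exact (mul_eq_zero.1 this).resolve_left h4
    have h94 : w 1 9 = - 2 * c := by
      have h5 : t * (w 1 9 + 2 * c) = 0 := by linarith
      have := (mul_eq_zero.1 h5).resolve_left h0
      linarith
    let P : A14 := ![w 1 4, w 1 12 + w 0 11, w 0 11, w 0 9 - 2 * t * w 1 11, w 1 10 + g,
      w 0 8 + 2 * w 0 7, w 0 10, w 0 13, 0, 0, w 1 13, 0, 0, 0]
    let Q : A14 := ![w 1 2, w 1 11, 0, c, 0, w 1 7 - w 0 10, g, 0, 0, 0, 0, 0, 0, 0]
    have P0 : P 0 = w 1 4 := rfl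
    have P1 : P 1 = w 1 12 + w 0 11 := rfl
    have P2 : P 2 = w 0 11 := rfl
    have P3 : P 3 = w 0 9 - 2 * t * w 1 11 := rfl
    have P4 : P 4 = w 1 10 + g := rfl
    have P5 : P 5 = w 0 8 + 2 * w 0 7 := rfl
    have P6 : P 6 = w 0 10 := rfl
    have P7 : P 7 = w 0 13 := rfl
    have P10 : P 10 = w 1 13 := rfl
    have Q0 : Q 0 = w 1 2 := rfl
    have Q1 : Q 1 = w 1 11 := rfl
    have Q2 : Q 2 = 0 := rfl
    have Q3 : Q 3 = c := rfl
    have Q4 : Q 4 = 0 := rfl
    have Q5 : Q 5 = w 1 7 - w 0 10 := rfl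
    have Q6 : Q 6 = g := rfl
    have Q8 : Q 8 = 0 := rfl
    have Q9 : Q 9 = 0 := rfl
    refine ⟨![P, Q], ?_⟩
    funext i
    fin_cases i
    · show e 1 * P + ((2 * t) • e 3) * Q = w 0
      apply ext14 <;> simp [e_ap, P0, P1, P2, P3, P4, P5, P6, P7, P10, Q0, Q1, Q2, Q3, Q4, Q5, Q6,
        Q8, Q9] <;> linarith
    · show e 4 * P + e 2 * Q = w 1
      apply ext14 <;> simp [e_ap, P0, P1, P2, P3, P4, P5, P6, P7, P10, Q0, Q1, Q2, Q3, Q4, Q5, Q6,
        Q8, Q9] <;> linarith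
  · rintro _ ⟨w, rfl⟩
    rw [LinearMap.mem_ker, dt_comp]

theorem UB_range (n : ℕ) (t : ℚ) (ht : 2 ≤ t) :
    UB A14 n (fun _ => 2) (LinearMap.range (dt t)) := by
  induction n generalizing t with
  | zero => exact ⟨(dt t).rangeRestrict, (dt t).surjective_rangeRestrict⟩
  | succ n ih =>
    refine ⟨(dt t).rangeRestrict, (dt t).surjective_rangeRestrict, ?_⟩
    rw [LinearMap.ker_rangeRestrict, ker_dt t (by linarith) (by linarith) (by linarith)]
    exact ih (2 * t) (by linarith)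

/-- The dual map: its kernel is the orthogonal complement of `range (dt 2)`. -/
noncomputable def psi : (Fin 2 → A14) →ₗ[A14] (Fin 2 → A14) where
  toFun w := ![e 4 * w 0 + e 1 * w 1, e 2 * w 0 + ((2 : ℚ) • e 3) * w 1]
  map_add' u v := by
    funext i
    fin_cases i
    · show e 4 * (u 0 + v 0) + e 1 * (u 1 + v 1) =
        (e 4 * u 0 + e 1 * u 1) + (e 4 * v 0 + e 1 * v 1)
      ring
    · show e 2 * (u 0 + v 0) + ((2 : ℚ) • e 3) * (u 1 + v 1) =
        (e 2 * u 0 + ((2 : ℚ) • e 3) * u 1) + (e 2 * v 0 + ((2 : ℚ) • e 3) * v 1)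
      ring
  map_smul' r u := by
    funext i
    fin_cases i
    · show e 4 * (r * u 0) + e 1 * (r * u 1) = r * (e 4 * u 0 + e 1 * u 1)
      ring
    · show e 2 * (r * u 0) + ((2 : ℚ) • e 3) * (r * u 1) = r * (e 2 * u 0 + ((2 : ℚ) • e 3) * u 1)
      ring

theorem psi_0 (w : Fin 2 → A14) : psi w 0 = e 4 * w 0 + e 1 * w 1 := rfl
theorem psi_1 (w : Fin 2 → A14) : psi w 1 = e 2 * w 0 + ((2 : ℚ) • e 3) * w 1 := rfl

end A14

end Pool.Agent.Lib_ae0d71
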