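import Pool.Agent.Lib_ae0d71.MinRes

set_option autoImplicit false
set_option linter.unusedSectionVars false
set_option linter.unusedVariables false

namespace Pool.Agent.Lib_ae0d71

open Function IsLocalRing

/-! ### Modules over `R[ε]` on which `ε` acts by zero -/

section Dual
variable {R : Type} [CommRing R]

abbrev DN (R : Type) [CommRing R] : Type := DualNumber R

/-- partial sums -/
def psum : (ℕ → ℕ) → ℕ → ℕ
  | f, 0 => f 0
  | f, k + 1 => f 0 + psum (fun i => f (i + 1)) k

/-- `Y` is the `R`-module `X` regarded as a module over the dual numbers -/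
def SL (R : Type) [CommRing R] (X Y : Type) [AddCommGroup X] [Module R X] [AddCommGroup Y]
    [Module (DN R) Y] : Prop :=
  ∃ σ : Y ≃+ X, ∀ (d : DN R) (y : Y), σ (d • y) = d.fst • σ y

/-- the cover of `Y` by a free module over the dual numbers -/
def liftCover {X Y : Type} [AddCommGroup X] [Module R X] [AddCommGroup Y]
    [Module (DN R) Y] (σ : Y ≃+ X) (hσ : ∀ (d : DN R) (y : Y), σ (d • y) = d.fst • σ y) {m : ℕ}
    (φ : (Fin m → R) →ₗ[R] X) : (Fin m → DN R) →ₗ[DN R] Y where
  toFun w := σ.symm (φ (fun i => (w i).fst))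
  map_add' u v := by
    rw [← map_add, ← map_add]; rfl
  map_smul' d u := by
    apply σ.injective
    rw [RingHom.id_apply, hσ, AddEquiv.apply_symm_apply, AddEquiv.apply_symm_apply, ← map_smul]
    congr 1

theorem liftCover_surj {X Y : Type} [AddCommGroup X] [Module R X] [AddCommGroup Y]
    [Module (DN R) Y] (σ : Y ≃+ X) (hσ : ∀ (d : DN R) (y : Y), σ (d • y) = d.fst • σ y) {m : ℕ}
    (φ : (Fin m → R) →ₗ[R] X) (hφ : Surjective φ) : Surjective (liftCover σ hσ φ) := by
  intro y
  obtain ⟨v, hv⟩ := hφ (σ y)
  refine ⟨fun i => TrivSqZeroExt.inl (v i), ?_⟩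
  apply σ.injective
  show σ (σ.symm (φ (fun i => (TrivSqZeroExt.inl (v i) : DN R).fst))) = σ y
  rw [AddEquiv.apply_symm_apply]
  exact hv

theorem mem_ker_liftCover {X Y : Type} [AddCommGroup X] [Module R X] [AddCommGroup Y]
    [Module (DN R) Y] (σ : Y ≃+ X) (hσ : ∀ (d : DN R) (y : Y), σ (d • y) = d.fst • σ y) {m : ℕ}
    (φ : (Fin m → R) →ₗ[R] X) (w : Fin m → DN R) :
    w ∈ LinearMap.ker (liftCover σ hσ φ) ↔ φ (fun i => (w i).fst) = 0 := by
  rw [LinearMap.mem_ker]
  show σ.symm (φ (fun i => (w i).fst)) = 0 ↔ _
  rw [AddEquiv.map_eq_zero_iff]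

/-- `R^m` regarded as a module over the dual numbers -/
theorem UB_free {Y : Type} [AddCommGroup Y] [Module (DN R) Y] (n m : ℕ)
    (h : SL R (Fin m → R) Y) : UB (DN R) n (fun _ => m) Y := by
  induction n generalizing Y with
  | zero =>
    obtain ⟨σ, hσ⟩ := h
    exact ⟨liftCover σ hσ LinearMap.id, liftCover_surj σ hσ _ surjective_id⟩
  | succ n ih =>
    obtain ⟨σ, hσ⟩ := h
    refine ⟨liftCover σ hσ LinearMap.id, liftCover_surj σ hσ _ surjective_id, ?_⟩
    apply ih
    have hk : ∀ w : LinearMap.ker (liftCover σ hσ LinearMap.id),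
        ∀ i, (w.1 i).fst = 0 := by
      intro w i
      have := (mem_ker_liftCover σ hσ LinearMap.id w.1).1 w.2
      exact congrFun this i
    refine ⟨{ toFun := fun w i => (w.1 i).snd
              invFun := fun v => ⟨fun i => TrivSqZeroExt.inr (v i), ?_⟩
              left_inv := ?_
              right_inv := ?_
              map_add' := ?_ }, ?_⟩
    · rw [mem_ker_liftCover]
      funext i
      show (TrivSqZeroExt.inr (v i) : DN R).fst = 0
      rw [TrivSqZeroExt.fst_inr]
    · intro w
      apply Subtype.ext
      funext i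
      apply TrivSqZeroExt.ext
      · show (TrivSqZeroExt.inr (w.1 i).snd : DN R).fst = _
        rw [TrivSqZeroExt.fst_inr, hk w i]
      · show (TrivSqZeroExt.inr (w.1 i).snd : DN R).snd = _
        rw [TrivSqZeroExt.snd_inr]
    · intro v
      funext i
      show (TrivSqZeroExt.inr (v i) : DN R).snd = _
      rw [TrivSqZeroExt.snd_inr]
    · intro w v
      rfl
    · intro d w
      funext i
      show (d • w.1 i).snd = d.fst • (w.1 i).snd
      rw [smul_eq_mul, TrivSqZeroExt.snd_mul, hk w i]
      simp

theorem UB_dual {X Y : Type} [AddCommGroup X] [Module R X] [AddCommGroup Y]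
    [Module (DN R) Y] (n : ℕ) (f : ℕ → ℕ) (h : SL R X Y) (hX : UB R n f X) :
    UB (DN R) n (psum f) Y := by
  induction n generalizing X Y f with
  | zero =>
    obtain ⟨σ, hσ⟩ := h
    obtain ⟨φ, hφ⟩ := hX
    exact ⟨liftCover σ hσ φ, liftCover_surj σ hσ _ hφ⟩
  | succ n ih =>
    obtain ⟨σ, hσ⟩ := h
    obtain ⟨φ, hφ, hK⟩ := hX
    refine UB.of_cover (f := psum f) (P := Fin (f 0) → DN R)
      (LinearEquiv.refl (DN R) (Fin (f 0) → DN R)) (liftCover σ hσ φ)
      (liftCover_surj σ hσ _ hφ) ?_
    let B := LinearMap.ker (liftCover σ hσ φ)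
    -- the submodule of vectors divisible by ε
    let A : Submodule (DN R) B :=
      { carrier := {w | ∀ i, (w.1 i).fst = 0}
        add_mem' := by
          intro u v hu hv i
          show ((u.1 i) + (v.1 i)).fst = 0
          rw [TrivSqZeroExt.fst_add, hu i, hv i, add_zero]
        zero_mem' := fun i => rfl
        smul_mem' := by
          intro d u hu i
          show (d • (u.1 i)).fst = 0
          rw [smul_eq_mul, TrivSqZeroExt.fst_mul, hu i, mul_zero] }
    have hA : UB (DN R) n (fun _ => f 0) A := by
      apply UB_free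
      refine ⟨{ toFun := fun w i => (w.1.1 i).snd
                invFun := fun v => ⟨⟨fun i => TrivSqZeroExt.inr (v i), ?_⟩, ?_⟩
                left_inv := ?_
                right_inv := ?_
                map_add' := ?_ }, ?_⟩
      · rw [mem_ker_liftCover]
        have : (fun i => (TrivSqZeroExt.inr (v i) : DN R).fst) = 0 := by
          funext i
          rw [TrivSqZeroExt.fst_inr]; rfl
        rw [this, map_zero]
      · intro i
        show (TrivSqZeroExt.inr (v i) : DN R).fst = 0
        rw [TrivSqZeroExt.fst_inr]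
      · intro w
        apply Subtype.ext
        apply Subtype.ext
        funext i
        apply TrivSqZeroExt.ext
        · show (TrivSqZeroExt.inr (w.1.1 i).snd : DN R).fst = _
          rw [TrivSqZeroExt.fst_inr, w.2 i]
        · show (TrivSqZeroExt.inr (w.1.1 i).snd : DN R).snd = _
          rw [TrivSqZeroExt.snd_inr]
      · intro v
        funext i
        show (TrivSqZeroExt.inr (v i) : DN R).snd = _
        rw [TrivSqZeroExt.snd_inr]
      · intro w v
        rfl
      · intro d w
        funext i
        show (d • w.1.1 i).snd = d.fst • (w.1.1 i).snd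
        rw [smul_eq_mul, TrivSqZeroExt.snd_mul, w.2 i]
        simp
    let modK : Module (DN R) (LinearMap.ker φ) :=
      Module.compHom _ (TrivSqZeroExt.fstHom R R R).toRingHom
    have hsm : ∀ (d : DN R) (k : LinearMap.ker φ), d • k = d.fst • k := fun d k => rfl
    have hC : UB (DN R) n (psum (fun i => f (i + 1))) (LinearMap.ker φ) :=
      ih (fun i => f (i + 1)) ⟨AddEquiv.refl _, fun d y => rfl⟩ hK
    let p : B →ₗ[DN R] LinearMap.ker φ :=
      { toFun := fun w => ⟨fun i => (w.1 i).fst, (mem_ker_liftCover σ hσ φ w.1).1 w.2⟩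
        map_add' := fun u v => rfl
        map_smul' := fun d u => by
          apply Subtype.ext
          funext i
          show (d • u.1 i).fst = (d.fst • (fun i => (u.1 i).fst)) i
          rw [smul_eq_mul, TrivSqZeroExt.fst_mul]
          rfl }
    refine UB.horseshoe (f := fun _ => f 0) (g := psum (fun i => f (i + 1))) A.subtype p
      Subtype.val_injective ?_ ?_ hA hC
    · rintro ⟨v, hv⟩
      refine ⟨⟨fun i => TrivSqZeroExt.inl (v i), ?_⟩, ?_⟩
      · rw [mem_ker_liftCover]
        exact hv
      · apply Subtype.ext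
        rfl
    · have hr : LinearMap.range A.subtype = A := Submodule.range_subtype A
      rw [hr]
      ext w
      rw [LinearMap.mem_ker]
      constructor
      · intro hw
        apply Subtype.ext
        funext i
        exact hw i
      · intro hw i
        have := congrArg (fun z => (z.1 : Fin (f 0) → R) i) hw
        exact this

end Dual

/-! ### Restriction of scalars along a finite free extension -/

theorem UB_restrict {R D : Type} [CommRing R] [Nontrivial R] [CommRing D] [Algebra R D]
    [Module.Free R D] [Module.Finite R D] {Y : Type} [AddCommGroup Y] [Module R Y] [Module D Y]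
    [IsScalarTower R D Y] (n : ℕ) (f : ℕ → ℕ) (h : UB D n f Y) :
    UB R n (fun k => f k * Module.finrank R D) Y := by
  have key : ∀ m : ℕ, Nonempty ((Fin (m * Module.finrank R D) → R) ≃ₗ[R] (Fin m → D)) := by
    intro m
    refine ⟨LinearEquiv.ofFinrankEq _ _ ?_⟩
    rw [Module.finrank_fin_fun, Module.finrank_pi_fintype]
    simp
  induction n generalizing Y f with
  | zero =>
    obtain ⟨φ, hφ⟩ := h
    obtain ⟨e⟩ := key (f 0)
    exact ⟨(φ.restrictScalars R) ∘ₗ e.toLinearMap, hφ.comp e.surjective⟩
  | succ n ih =>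
    obtain ⟨φ, hφ, hK⟩ := h
    obtain ⟨e⟩ := key (f 0)
    refine UB.of_cover (f := fun k => f k * Module.finrank R D) e (φ.restrictScalars R) hφ ?_
    refine UB.congr ?_ (ih (fun i => f (i + 1)) hK)
    exact
      { toFun := fun w => ⟨w.1, w.2⟩
        invFun := fun w => ⟨w.1, w.2⟩
        left_inv := fun w => rfl
        right_inv := fun w => rfl
        map_add' := fun u v => rfl
        map_smul' := fun r u => rfl }

end Pool.Agent.Lib_ae0d71
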