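import Mathlib

set_option autoImplicit false

namespace Pool.Agent.Lib_ae0d71

open CategoryTheory IsLocalRing
open scoped ENNReal NNReal

noncomputable section

/-- The `n`-th Betti number `dim_k Tor_n(k, M)` of a module over the local ring `R`, written as the
length of the `R`-module `Tor_n(k, M)` (Mathlib's `Tor`); `k` is the residue field. -/
def betti (R : Type) [CommRing R] [IsLocalRing R] (M : Type) [AddCommGroup M] [Module R M]
    (n : ℕ) : ℕ∞ :=
  Module.length R
    (((Tor (ModuleCat.{0} R) n).obj (ModuleCat.of R (ResidueField R))).obj (ModuleCat.of R M))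

/-- The complexity: the least `d` such that `β_n(M) ≤ c * n ^ (d - 1)` for some `c > 0` and all
`n ≥ 1`, and `⊤` if there is none. -/
def cx (R : Type) [CommRing R] [IsLocalRing R] (M : Type) [AddCommGroup M] [Module R M] : ℕ∞ :=
  sInf {e : ℕ∞ | ∃ d : ℕ, e = d ∧ ∃ c : ℝ≥0, 0 < c ∧ ∀ n : ℕ, 1 ≤ n →
    ((betti R M n : ℕ∞) : ℝ≥0∞) ≤ (c : ℝ≥0∞) * (n : ℝ≥0∞) ^ ((d : ℤ) - 1)}

/-- The curvature: `limsup β_n(M) ^ (1 / n)`. -/
def curv (R : Type) [CommRing R] [IsLocalRing R] (M : Type) [AddCommGroup M] [Module R M] :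
    ℝ≥0∞ :=
  Filter.limsup (fun n : ℕ => ((betti R M n : ℕ∞) : ℝ≥0∞) ^ ((n : ℝ)⁻¹)) Filter.atTop

/-- The grade of an ideal: the supremum of the lengths of regular sequences contained in it. -/
def grade {R : Type} [CommRing R] (a : Ideal R) : ℕ∞ :=
  sSup {l : ℕ∞ | ∃ rs : List R, (∀ r ∈ rs, r ∈ a) ∧ RingTheory.Sequence.IsRegular R rs ∧
    l = (rs.length : ℕ∞)}

/-- Gorenstein local rings: Noetherian local rings of finite injective dimension over
themselves. -/
structure IsGorensteinLocal (Q : Type) [CommRing Q] : Prop where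
  isLocal : IsLocalRing Q
  noeth : IsNoetherianRing Q
  injdim : injectiveDimension (ModuleCat.of Q Q) < ⊤

/-- Cohen-Macaulay local rings: Noetherian local rings whose depth is equal to the Krull
dimension. -/
structure IsCohenMacaulayLocal (Q : Type) [CommRing Q] : Prop where
  isLocal : IsLocalRing Q
  noeth : IsNoetherianRing Q
  depth_eq : ((grade (maximalIdeal Q) : ℕ∞) : WithBot ℕ∞) = ringKrullDim Q

/-- Gorenstein perfect ideals: `pd (R / a) = grade a < ∞` and `R / a` is Gorenstein. -/
structure IsGorensteinPerfect {R : Type} [CommRing R] (a : Ideal R) : Prop where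
  pd_eq : projectiveDimension (ModuleCat.of R (R ⧸ a)) = ((grade a : ℕ∞) : WithBot ℕ∞)
  grade_lt : grade a < ⊤
  gor : IsGorensteinLocal (R ⧸ a)

/-- `I` and `J` are linked by `a`. -/
structure IsLinkedBy {R : Type} [CommRing R] (a I J : Ideal R) : Prop where
  le_left : a ≤ I
  le_right : a ≤ J
  left_eq : I = a.colon (J : Set R)
  right_eq : J = a.colon (I : Set R)

end

end Pool.Agent.Lib_ae0d71
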