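import Pool.Agent.Lib_ae0d71.Main
import Pool.Agent.Lib_ae0d71.Analytic

set_option autoImplicit false

namespace Pool.Agent.Lib_ae0d71

/-- all conditions on the example -/
structure IsExample (R : Type) [CommRing R] [IsLocalRing R] (a I J : Ideal R) : Prop where
  gor : IsGorensteinLocal R
  art : IsArtinianRing R
  left_ne_top : I ≠ ⊤
  right_ne_top : J ≠ ⊤
  perfect : IsGorensteinPerfect a
  linked : IsLinkedBy a I J
  cm_left : IsCohenMacaulayLocal (R ⧸ I)
  cm_right : IsCohenMacaulayLocal (R ⧸ J)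
  cx_left : cx R I ≤ 3
  cx_right : cx R J = ⊤
  curv_left : curv R I ≤ 1
  curv_right : 2 ≤ curv R J

theorem example_of {R : Type} [CommRing R] [IsLocalRing R] [Algebra ℚ R] [Module.Finite ℚ R]
    (hF : Frob R) (I J : Ideal R) (hI : I ≠ ⊤) (hJ : J ≠ ⊤) (hl : IsLinkedBy ⊥ I J)
    (bI : ∀ n, betti R I n ≤ ((n + 1) * (n + 3) : ℕ))
    (bJ : ∀ n, ∃ b : ℕ, betti R J n = b ∧ 3 * 2 ^ n ≤ b * 4) : IsExample R ⊥ I J := by
  have hart : IsArtinianRing R := IsArtinianRing.of_finite ℚ R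
  have l1 : IsLocalRing (R ⧸ I) := quot_local I hI
  have l2 : IsLocalRing (R ⧸ J) := quot_local J hJ
  exact ⟨gor_of_frob hF, hart, hI, hJ, perfect_bot R hF, hl, cm_of_artin (R ⧸ I),
    cm_of_artin (R ⧸ J), cx_le_three bI, cx_eq_top bJ, curv_le_one bI, two_le_curv bJ⟩

theorem the_example : IsExample S ⊥ II JJ :=
  example_of frob_S II JJ II_ne_top JJ_ne_top linked betti_II betti_JJ

end Pool.Agent.Lib_ae0d71
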