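import Pool.Agent.Lib_ae0d71.MinRes

set_option autoImplicit false
set_option linter.unusedSectionVars false
set_option linter.unusedVariables false

namespace Pool.Agent.Lib_ae0d71

open Function IsLocalRing

variable {R : Type} [CommRing R]

theorem mem_smul_top_of_coord {b : ℕ} (I : Ideal R) (v : Fin b → R) (h : ∀ i, v i ∈ I) :
    v ∈ I • (⊤ : Submodule R (Fin b → R)) := by
  have h1 : v = ∑ i, v i • (Pi.single i (1 : R) : Fin b → R) := by
    funext j
    rw [Finset.sum_apply, Finset.sum_eq_single j]
    · simp
    · intro i _ hij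
      simp [Pi.single_eq_of_ne (Ne.symm hij)]
    · intro h; exact absurd (Finset.mem_univ j) h
  rw [h1]
  exact Submodule.sum_mem _ (fun i _ => Submodule.smul_mem_smul (h i) Submodule.mem_top)

theorem coord_of_mem_smul_top {b : ℕ} (I : Ideal R) (v : Fin b → R)
    (h : v ∈ I • (⊤ : Submodule R (Fin b → R))) (i : Fin b) : v i ∈ I := by
  refine Submodule.smul_induction_on h ?_ ?_
  · intro r hr n _
    exact I.mul_mem_right _ hr
  · intro x y hx hy
    exact I.add_mem hx hy

variable [IsLocalRing R]

theorem exists_cover (X : Type) [AddCommGroup X] [Module R X] [Module.Finite R X] :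
    ∃ (b : ℕ) (π : (Fin b → R) →ₗ[R] X), Surjective π ∧
      LinearMap.ker π ≤ maximalIdeal R • (⊤ : Submodule R (Fin b → R)) := by
  classical
  have hex : ∃ b : ℕ, ∃ π : (Fin b → R) →ₗ[R] X, Surjective π := by
    obtain ⟨n, f, hf⟩ := Module.Finite.exists_fin' R X
    exact ⟨n, f, hf⟩
  obtain ⟨π, hπ⟩ := Nat.find_spec hex
  refine ⟨Nat.find hex, π, hπ, ?_⟩
  intro v hv
  apply mem_smul_top_of_coord
  intro i
  by_contra hvi
  have hu : IsUnit (v i) := by
    by_contra h
    exact hvi ((IsLocalRing.mem_maximalIdeal _).2 h)
  -- drop the generator i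
  have hpos : 0 < Nat.find hex := lt_of_le_of_lt (Nat.zero_le _) i.isLt
  obtain ⟨c, hc⟩ : ∃ c, Nat.find hex = c + 1 := ⟨Nat.find hex - 1, by omega⟩
  refine Nat.find_min hex (m := c) (by omega) ?_
  obtain ⟨w, hw⟩ := hu.exists_left_inv
  -- transport to Fin (c+1)
  revert π hπ v hv i hvi hu w hw
  rw [hc]
  intro π hπ v hv i hvi hu w hw
  let ι : (Fin c → R) →ₗ[R] (Fin (c + 1) → R) :=
    { toFun := fun u => Fin.insertNth i (0 : R) u
      map_add' := fun u u' => by
        funext j
        refine Fin.succAboveCases i ?_ (fun k => ?_) j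
        · simp
        · simp
      map_smul' := fun r u => by
        funext j
        refine Fin.succAboveCases i ?_ (fun k => ?_) j
        · simp
        · simp }
  refine ⟨π ∘ₗ ι, ?_⟩
  intro x
  obtain ⟨u, hu'⟩ := hπ x
  -- subtract a multiple of v
  let u' : Fin (c + 1) → R := u - (u i * w) • v
  have h1 : π u' = x := by
    rw [map_sub, map_smul, LinearMap.mem_ker.1 hv, smul_zero, sub_zero, hu']
  have h2 : u' i = 0 := by
    show u i - (u i * w) * v i = 0
    rw [mul_assoc, hw, mul_one, sub_self]
  refine ⟨fun k => u' (i.succAbove k), ?_⟩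
  rw [← h1]
  show π (ι _) = π u'
  congr 1
  funext j
  refine Fin.succAboveCases i ?_ (fun k => ?_) j
  · exact (Fin.insertNth_apply_same (α := fun _ => R) i 0
      (fun k => u' (i.succAbove k))).trans h2.symm
  · exact Fin.insertNth_apply_succAbove (α := fun _ => R) i 0
      (fun k => u' (i.succAbove k)) k

section
variable (R)

/-- a stage of the construction: a rank and the kernel of the cover -/
abbrev Stage : Type := Σ b : ℕ, Submodule R (Fin b → R)

variable [IsNoetherianRing R]

/-- next rank -/
noncomputable def nb (s : Stage R) : ℕ := (exists_cover (R := R) s.2).choose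

/-- next cover -/
noncomputable def nπ (s : Stage R) : (Fin (nb R s) → R) →ₗ[R] s.2 :=
  (exists_cover (R := R) s.2).choose_spec.choose

theorem nπ_surj (s : Stage R) : Surjective (nπ R s) :=
  (exists_cover (R := R) s.2).choose_spec.choose_spec.1

theorem nπ_ker (s : Stage R) : LinearMap.ker (nπ R s) ≤
    maximalIdeal R • (⊤ : Submodule R (Fin (nb R s) → R)) :=
  (exists_cover (R := R) s.2).choose_spec.choose_spec.2

variable {R}

theorem range_stage (s : Stage R) : LinearMap.range (s.2.subtype ∘ₗ nπ R s) = s.2 := by
  rw [LinearMap.range_comp, LinearMap.range_eq_top.2 (nπ_surj R _), Submodule.map_top,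
    Submodule.range_subtype]

theorem ker_stage (s : Stage R) :
    LinearMap.ker (s.2.subtype ∘ₗ nπ R s) = LinearMap.ker (nπ R s) := by
  rw [LinearMap.ker_comp, Submodule.ker_subtype]
  rfl

variable (R)

/-- the sequence of stages -/
noncomputable def stages (s : Stage R) : ℕ → Stage R
  | 0 => s
  | n + 1 => ⟨nb R (stages s n), LinearMap.ker (nπ R (stages s n))⟩

end

/-- Every finite module over a Noetherian local ring has a minimal free resolution. -/
theorem exists_minRes [IsNoetherianRing R] (X : Type) [AddCommGroup X] [Module R X]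
    [Module.Finite R X] : Nonempty (MinRes R X) := by
  obtain ⟨b, π, hπ, hk⟩ := exists_cover (R := R) X
  let s : Stage R := ⟨b, LinearMap.ker π⟩
  exact ⟨{ rank := fun n => (stages R s n).1
           d := fun n => (stages R s n).2.subtype ∘ₗ nπ R (stages R s n)
           aug := π
           surj := hπ
           exact_zero := range_stage (stages R s 0)
           exact_succ := fun n =>
             (range_stage (stages R s (n + 1))).trans (ker_stage (stages R s n)).symm
           minimal := fun n => (range_stage (stages R s n)).le.trans (by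
             cases n with
             | zero => exact hk
             | succ n => exact nπ_ker R _) }⟩

end Pool.Agent.Lib_ae0d71
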