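import Pool.Agent.Lib_ae0d71.XMod

set_option autoImplicit false
set_option linter.unusedSectionVars false
set_option linter.unusedVariables false

namespace Pool.Agent.Lib_ae0d71

open Function IsLocalRing

section Frobenius

variable (R : Type) [CommRing R] [Algebra ℚ R]

/-- a functional with nondegenerate trace form -/
def Frob : Prop :=
  ∃ lam : R →ₗ[ℚ] ℚ, ∀ r : R, (∀ s, lam (r * s) = 0) → r = 0

variable {R}

theorem Frob.exists_rep [Module.Finite ℚ R] (lam : R →ₗ[ℚ] ℚ)
    (h : ∀ r : R, (∀ s, lam (r * s) = 0) → r = 0) (μ : R →ₗ[ℚ] ℚ) :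
    ∃ a : R, ∀ s, μ s = lam (a * s) := by
  let T : R →ₗ[ℚ] Module.Dual ℚ R :=
    { toFun := fun a =>
        { toFun := fun s => lam (a * s)
          map_add' := fun s t => by rw [mul_add, map_add]
          map_smul' := fun c s => by rw [mul_smul_comm, map_smul]; rfl }
      map_add' := fun a b => by
        apply LinearMap.ext
        intro s
        show lam ((a + b) * s) = lam (a * s) + lam (b * s)
        rw [add_mul, map_add]
      map_smul' := fun c a => by
        apply LinearMap.ext
        intro s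
        show lam ((c • a) * s) = c • lam (a * s)
        rw [smul_mul_assoc, map_smul] }
  have hT : Injective T := by
    rw [injective_iff_map_eq_zero]
    intro a ha
    apply h
    intro s
    exact LinearMap.congr_fun ha s
  have hs : Surjective T :=
    (LinearMap.injective_iff_surjective_of_finrank_eq_finrank
      (Subspace.dual_finrank_eq (K := ℚ) (V := R)).symm).1 hT
  obtain ⟨a, ha⟩ := hs μ
  exact ⟨a, fun s => by rw [← ha]; rfl⟩

theorem Frob.baer [Module.Finite ℚ R] (h : Frob R) : Module.Baer R R := by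
  obtain ⟨lam, h⟩ := h
  intro I g
  -- extend lam ∘ g
  obtain ⟨μ, hμ⟩ := LinearMap.exists_extend (p := I.restrictScalars ℚ)
    (lam ∘ₗ (g.restrictScalars ℚ))
  obtain ⟨a, ha⟩ := Frob.exists_rep lam h μ
  refine ⟨LinearMap.toSpanSingleton R R a, ?_⟩
  intro x hx
  rw [LinearMap.toSpanSingleton_apply, smul_eq_mul]
  have key : x * a - g ⟨x, hx⟩ = 0 := by
    apply h
    intro s
    have h1 : lam (g (s • ⟨x, hx⟩)) = μ (s * x) :=
      (LinearMap.congr_fun hμ (s • ⟨x, hx⟩)).symm
    rw [map_smul, smul_eq_mul, ha] at h1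
    rw [sub_mul, map_sub, mul_comm (g ⟨x, hx⟩) s, h1]
    rw [sub_eq_zero]
    congr 1
    ring
  exact sub_eq_zero.1 key

theorem Frob.ann_ann [Module.Finite ℚ R] (h : Frob R) (I : Ideal R) (t : R)
    (ht : ∀ a : R, (∀ i ∈ I, a * i = 0) → a * t = 0) : t ∈ I := by
  by_contra hn
  obtain ⟨lam, h⟩ := h
  obtain ⟨μ, hμt, hμ⟩ := Submodule.exists_le_ker_of_notMem (p := I.restrictScalars ℚ) (v := t) hn
  obtain ⟨a, ha⟩ := Frob.exists_rep lam h μ
  apply hμt
  rw [ha, ht a, map_zero]
  intro i hi
  apply h
  intro s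
  rw [mul_assoc, ← ha]
  exact hμ (I.mul_mem_right s hi)

theorem Frob.dual (h : Frob R) : Frob (DN R) := by
  obtain ⟨lam, h⟩ := h
  refine ⟨{ toFun := fun s => lam s.snd
            map_add' := fun s t => by rw [TrivSqZeroExt.snd_add, map_add]
            map_smul' := fun c s => by rw [TrivSqZeroExt.snd_smul, map_smul]; rfl }, ?_⟩
  intro r hr
  have hr' : ∀ s : DN R, lam (r.fst * s.snd + s.fst * r.snd) = 0 := by
    intro s
    have := hr s
    have h2 : (r * s).snd = r.fst * s.snd + s.fst * r.snd := by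
      rw [TrivSqZeroExt.snd_mul]
      simp [mul_comm]
    rw [← h2]
    exact this
  apply TrivSqZeroExt.ext
  · show r.fst = 0
    apply h
    intro s
    have := hr' (TrivSqZeroExt.inr s)
    rw [TrivSqZeroExt.snd_inr, TrivSqZeroExt.fst_inr, zero_mul, add_zero] at this
    exact this
  · show r.snd = 0
    apply h
    intro s
    have := hr' (TrivSqZeroExt.inl s)
    rw [TrivSqZeroExt.snd_inl, TrivSqZeroExt.fst_inl, mul_zero, zero_add, mul_comm] at this
    exact this

end Frobenius

theorem frob_A14 : Frob A14 := by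
  refine ⟨{ toFun := fun p => p 13
            map_add' := fun p q => rfl
            map_smul' := fun c p => rfl }, ?_⟩
  intro r hr
  have hr' : ∀ s : A14, (r * s) 13 = 0 := hr
  have a0 := hr' (A14.e 13)
  have a1 := hr' (A14.e 7)
  have a2 := hr' (A14.e 8)
  have a3 := hr' (A14.e 9)
  have a4 := hr' (A14.e 10)
  have a5 := hr' (A14.e 11)
  have a6 := hr' (A14.e 12)
  have a7 := hr' (A14.e 1)
  have a8 := hr' (A14.e 2)
  have a9 := hr' (A14.e 3)
  have a10 := hr' (A14.e 4)
  have a11 := hr' (A14.e 5)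
  have a12 := hr' (A14.e 6)
  have a13 := hr' (A14.e 0)
  simp [A14.e_ap] at a0 a1 a2 a3 a4 a5 a6 a7 a8 a9 a10 a11 a12 a13
  apply A14.ext14 <;> simpa using (by assumption)

/-- `DN R` as an `R`-module -/
def dnE (K R : Type) [CommRing K] [CommRing R] [Algebra K R] : DN R ≃ₗ[K] R × R where
  toFun s := (s.fst, s.snd)
  invFun p := (p.1, p.2)
  left_inv s := rfl
  right_inv p := rfl
  map_add' s t := rfl
  map_smul' c s := rfl

instance dn_finite (K R : Type) [CommRing K] [CommRing R] [Algebra K R] [Module.Finite K R] :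
    Module.Finite K (DN R) := Module.Finite.equiv (dnE K R).symm

theorem dn_free (K R : Type) [CommRing K] [CommRing R] [Algebra K R] [Module.Free K R] :
    Module.Free K (DN R) := Module.Free.of_equiv (dnE K R).symm

instance dn_local (R : Type) [CommRing R] [IsLocalRing R] : IsLocalRing (DN R) :=
  IsLocalRing.of_nonunits_add (by
    intro a b ha hb
    rw [mem_nonunits_iff, TrivSqZeroExt.isUnit_iff_isUnit_fst] at ha hb ⊢
    rw [TrivSqZeroExt.fst_add]
    exact IsLocalRing.nonunits_add ha hb)

end Pool.Agent.Lib_ae0d71
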