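import Pool.Agent.Lib_ae0d71.Exist

set_option autoImplicit false
set_option linter.unusedSectionVars false
set_option linter.unusedVariables false

namespace Pool.Agent.Lib_ae0d71

open Function IsLocalRing

section
variable {K R : Type} [Field K] [CommRing R] [IsLocalRing R] [Algebra K R] [Module.Finite K R]
variable {X : Type} [AddCommGroup X] [Module R X] [Module K X] [IsScalarTower K R X]

theorem range_dim_le (P : MinRes R X) (N2 : Submodule K R)
    (hm : ∀ x ∈ maximalIdeal R, ∀ y ∈ maximalIdeal R, x * y ∈ N2)
    (hres : ∀ r : R, ∃ c : K, r - algebraMap K R c ∈ maximalIdeal R) (n : ℕ) :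
    Module.finrank K (LinearMap.range ((P.d n).restrictScalars K)) ≤
      P.rank (n + 1) + Module.finrank K N2 * P.rank n := by
  let κ : (Fin (P.rank (n + 1)) → K) →ₗ[K] (Fin (P.rank n) → R) :=
    ((P.d n).restrictScalars K) ∘ₗ
      (LinearMap.pi (fun j => (Algebra.linearMap K R) ∘ₗ LinearMap.proj j))
  let B : Submodule K (Fin (P.rank n) → R) := Submodule.pi Set.univ (fun _ => N2)
  have hB : Module.finrank K B = Module.finrank K N2 * P.rank n := by
    let e : B ≃ₗ[K] (Fin (P.rank n) → N2) :=
      { toFun := fun v i => ⟨v.1 i, v.2 i (Set.mem_univ i)⟩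
        invFun := fun v => ⟨fun i => (v i).1, fun i _ => (v i).2⟩
        left_inv := fun v => rfl
        right_inv := fun v => rfl
        map_add' := fun u v => rfl
        map_smul' := fun r v => rfl }
    rw [e.finrank_eq, Module.finrank_pi_fintype]
    simp [mul_comm]
  have hle : LinearMap.range ((P.d n).restrictScalars K) ≤ LinearMap.range κ ⊔ B := by
    rintro _ ⟨v, rfl⟩
    choose c hc using fun j => hres (v j)
    let v' : Fin (P.rank (n + 1)) → R := fun j => v j - algebraMap K R (c j)
    have h1 : v = (fun j => algebraMap K R (c j)) + v' := by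
      funext j
      show v j = algebraMap K R (c j) + (v j - algebraMap K R (c j))
      ring
    have h2 : ((P.d n).restrictScalars K) v = κ c + P.d n v' := by
      show P.d n v = P.d n (fun j => algebraMap K R (c j)) + P.d n v'
      rw [← map_add, ← h1]
    rw [h2]
    refine Submodule.add_mem_sup (LinearMap.mem_range_self _ _) ?_
    intro i _
    have h3 : v' = ∑ j, v' j • (Pi.single j (1 : R) : Fin (P.rank (n + 1)) → R) := by
      funext k
      rw [Finset.sum_apply, Finset.sum_eq_single k]
      · simp
      · intro j _ hij
        simp [Pi.single_eq_of_ne (Ne.symm hij)]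
      · intro h; exact absurd (Finset.mem_univ k) h
    rw [h3, map_sum, Finset.sum_apply]
    refine Submodule.sum_mem _ (fun j _ => ?_)
    rw [map_smul]
    refine hm _ (hc j) _ ?_
    exact coord_of_mem_smul_top _ _ (P.minimal n (LinearMap.mem_range_self _ _)) i
  calc Module.finrank K (LinearMap.range ((P.d n).restrictScalars K))
      ≤ Module.finrank K (LinearMap.range κ ⊔ B : Submodule K _) :=
        Submodule.finrank_mono hle
    _ ≤ Module.finrank K (LinearMap.range κ) + Module.finrank K B :=
        Submodule.finrank_add_le_finrank_add_finrank _ _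
    _ ≤ P.rank (n + 1) + Module.finrank K N2 * P.rank n := by
        rw [hB]
        refine Nat.add_le_add_right ?_ _
        have := LinearMap.finrank_range_le κ
        rwa [Module.finrank_fin_fun] at this

theorem rank_nullity (P : MinRes R X) (n : ℕ) :
    Module.finrank K R * P.rank (n + 1) =
      Module.finrank K (LinearMap.range ((P.d n).restrictScalars K)) +
      Module.finrank K (LinearMap.range ((P.d (n + 1)).restrictScalars K)) := by
  have h1 := LinearMap.finrank_range_add_finrank_ker ((P.d n).restrictScalars K)
  have h2 : LinearMap.ker ((P.d n).restrictScalars K) =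
      LinearMap.range ((P.d (n + 1)).restrictScalars K) := by
    ext v
    have := congrArg (fun S => v ∈ S) (P.exact_succ n)
    exact (Iff.of_eq this).symm
  rw [h2, Module.finrank_pi_fintype] at h1
  rw [h1]
  simp [mul_comm]

theorem rank_nullity_zero (P : MinRes R X) :
    Module.finrank K R * P.rank 0 = Module.finrank K X +
      Module.finrank K (LinearMap.range ((P.d 0).restrictScalars K)) := by
  have h1 := LinearMap.finrank_range_add_finrank_ker (P.aug.restrictScalars K)
  have h2 : LinearMap.ker (P.aug.restrictScalars K) =
      LinearMap.range ((P.d 0).restrictScalars K) := by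
    ext v
    have := congrArg (fun S => v ∈ S) P.exact_zero
    exact (Iff.of_eq this).symm
  have h3 : LinearMap.range (P.aug.restrictScalars K) = ⊤ := LinearMap.range_eq_top.2 P.surj
  rw [h2, h3, finrank_top, Module.finrank_pi_fintype] at h1
  rw [h1]
  simp [mul_comm]

/-- Exponential growth of the Betti numbers. -/
theorem growth (P : MinRes R X) (N2 : Submodule K R)
    (hm : ∀ x ∈ maximalIdeal R, ∀ y ∈ maximalIdeal R, x * y ∈ N2)
    (hres : ∀ r : R, ∃ c : K, r - algebraMap K R c ∈ maximalIdeal R)
    (hR : Module.finrank K R = 14) (hN2 : Module.finrank K N2 = 7)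
    (hX : Module.finrank K X ≤ 14) (h0 : 3 ≤ P.rank 0) (n : ℕ) :
    3 * 2 ^ n ≤ P.rank n ∧ 2 * P.rank n ≤ P.rank (n + 1) := by
  have key : ∀ n, 2 * P.rank n ≤ P.rank (n + 1) := by
    intro n
    induction n with
    | zero =>
      have h1 := rank_nullity_zero (K := K) P
      have h2 := range_dim_le P N2 hm hres 0
      rw [hR] at h1
      rw [hN2] at h2
      omega
    | succ n ih =>
      have h1 := rank_nullity (K := K) P n
      have h2 := range_dim_le P N2 hm hres n
      have h3 := range_dim_le P N2 hm hres (n + 1)
      rw [hR] at h1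
      rw [hN2] at h2 h3
      omega
  refine ⟨?_, key n⟩
  induction n with
  | zero => simpa using h0
  | succ n ih =>
    have := key n
    rw [pow_succ]
    omega

end

end Pool.Agent.Lib_ae0d71
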