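import Pool.Agent.Lib_ae0d71.Frob

set_option autoImplicit false
set_option linter.unusedSectionVars false
set_option linter.unusedVariables false

namespace Pool.Agent.Lib_ae0d71

open Function IsLocalRing

section
variable {R : Type} [CommRing R]

abbrev DD (R : Type) [CommRing R] : Type := DN (DN R)

instance dd_tower : IsScalarTower R (DD R) (DD R) :=
  ⟨fun r s t => Algebra.smul_mul_assoc r s t⟩

theorem dd_00 (s t : DD R) : (s * t).fst.fst = s.fst.fst * t.fst.fst := by
  rw [TrivSqZeroExt.fst_mul, TrivSqZeroExt.fst_mul]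

theorem dd_01 (s t : DD R) : (s * t).fst.snd = s.fst.fst * t.fst.snd + s.fst.snd * t.fst.fst := by
  rw [TrivSqZeroExt.fst_mul, TrivSqZeroExt.snd_mul]
  simp [mul_comm]

theorem dd_10 (s t : DD R) : (s * t).snd.fst = s.fst.fst * t.snd.fst + s.snd.fst * t.fst.fst := by
  rw [TrivSqZeroExt.snd_mul]
  simp [mul_comm]

theorem dd_11 (s t : DD R) : (s * t).snd.snd = s.fst.fst * t.snd.snd + s.fst.snd * t.snd.fst
    + s.snd.fst * t.fst.snd + s.snd.snd * t.fst.fst := by
  rw [TrivSqZeroExt.snd_mul]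
  simp
  ring

/-- pair of middle coordinates -/
def mid (s : DD R) : Fin 2 → R := ![s.fst.snd, s.snd.fst]

theorem mid_0 (s : DD R) : mid s 0 = s.fst.snd := rfl
theorem mid_1 (s : DD R) : mid s 1 = s.snd.fst := rfl

theorem mid_add (s t : DD R) : mid (s + t) = mid s + mid t := by
  funext i
  fin_cases i <;> rfl

theorem mid_mul (s t : DD R) (ht : t.fst.fst = 0) : mid (s * t) = s.fst.fst • mid t := by
  funext i
  fin_cases i
  · show (s * t).fst.snd = s.fst.fst * t.fst.snd
    rw [dd_01, ht]; ring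
  · show (s * t).snd.fst = s.fst.fst * t.snd.fst
    rw [dd_10, ht]; ring

/-- the ideal of the double dual numbers attached to a submodule of `R²` -/
def idl (U : Submodule R (Fin 2 → R)) : Ideal (DD R) where
  carrier := {s | s.fst.fst = 0 ∧ mid s ∈ U}
  add_mem' := by
    rintro s t ⟨hs, hs'⟩ ⟨ht, ht'⟩
    refine ⟨?_, ?_⟩
    · show s.fst.fst + t.fst.fst = 0
      rw [hs, ht, add_zero]
    · rw [mid_add]
      exact U.add_mem hs' ht'
  zero_mem' := by
    refine ⟨rfl, ?_⟩
    have : mid (0 : DD R) = 0 := by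
      funext i
      fin_cases i <;> rfl
    rw [this]
    exact U.zero_mem
  smul_mem' := by
    rintro s t ⟨ht, ht'⟩
    refine ⟨?_, ?_⟩
    · rw [smul_eq_mul, dd_00, ht, mul_zero]
    · rw [smul_eq_mul, mid_mul s t ht]
      exact U.smul_mem _ ht'

theorem mem_idl (U : Submodule R (Fin 2 → R)) (s : DD R) :
    s ∈ idl U ↔ s.fst.fst = 0 ∧ mid s ∈ U := Iff.rfl

/-- elements with given coordinates -/
def mk4 (a b c d : R) : DD R := ((a, b), (c, d))

theorem mk4_00 (a b c d : R) : (mk4 a b c d).fst.fst = a := rfl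
theorem mk4_01 (a b c d : R) : (mk4 a b c d).fst.snd = b := rfl
theorem mk4_10 (a b c d : R) : (mk4 a b c d).snd.fst = c := rfl
theorem mk4_11 (a b c d : R) : (mk4 a b c d).snd.snd = d := rfl
theorem mid_mk4 (a : R) (w : Fin 2 → R) (d : R) : mid (mk4 a (w 0) (w 1) d) = w := by
  funext i
  fin_cases i <;> rfl

theorem dd_ext {s t : DD R} (h0 : s.fst.fst = t.fst.fst) (h1 : s.fst.snd = t.fst.snd)
    (h2 : s.snd.fst = t.snd.fst) (h3 : s.snd.snd = t.snd.snd) : s = t :=
  Prod.ext (Prod.ext h0 h1) (Prod.ext h2 h3)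

/-- annihilator of `idl U` -/
theorem ann_idl (U V : Submodule R (Fin 2 → R))
    (hUV : ∀ w, w ∈ V ↔ ∀ u ∈ U, u 0 * w 1 + u 1 * w 0 = 0) (t : DD R) :
    t ∈ idl V ↔ ∀ s ∈ idl U, s * t = 0 := by
  rw [mem_idl, hUV]
  constructor
  · rintro ⟨h0, h1⟩ s ⟨hs0, hs1⟩
    have h2 := h1 _ hs1
    rw [mid_0, mid_1, mid_0, mid_1] at h2
    apply dd_ext
    · rw [dd_00, hs0, zero_mul]; rfl
    · rw [dd_01, hs0, h0, zero_mul, mul_zero, add_zero]; rfl
    · rw [dd_10, hs0, h0, zero_mul, mul_zero, add_zero]; rfl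
    · rw [dd_11, hs0, h0, zero_mul, mul_zero, add_zero, zero_add, h2]; rfl
  · intro h
    have h0 : t.fst.fst = 0 := by
      have h1 := h (mk4 0 0 0 1) ⟨rfl, by
        have : mid (mk4 (0 : R) 0 0 1) = 0 := by
          funext i
          fin_cases i <;> rfl
        rw [this]; exact U.zero_mem⟩
      have h2 := congrArg (fun s : DD R => s.snd.snd) h1
      have h3 : (mk4 (0 : R) 0 0 1 * t).snd.snd = 0 := h2
      rw [dd_11, mk4_00, mk4_01, mk4_10, mk4_11] at h3
      simpa using h3
    refine ⟨h0, ?_⟩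
    intro u hu
    have h1 := h (mk4 0 (u 0) (u 1) 0) ⟨rfl, by rw [mid_mk4]; exact hu⟩
    have h2 := congrArg (fun s : DD R => s.snd.snd) h1
    have h3 : (mk4 0 (u 0) (u 1) 0 * t).snd.snd = 0 := h2
    rw [dd_11, mk4_00, mk4_01, mk4_10, mk4_11, h0] at h3
    rw [mid_0, mid_1]
    simpa using h3

/-- as an `R`-module, `idl X` is `X × R` -/
def idlE (X : Submodule R (Fin 2 → R)) : (idl X) ≃ₗ[R] X × (Fin 1 → R) where
  toFun s := (⟨mid s.1, s.2.2⟩, fun _ => s.1.snd.snd)
  invFun p := ⟨mk4 0 (p.1.1 0) (p.1.1 1) (p.2 0), ⟨rfl, by rw [mid_mk4]; exact p.1.2⟩⟩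
  left_inv := by
    rintro ⟨s, hs, hs'⟩
    apply Subtype.ext
    apply dd_ext
    · exact hs.symm
    · rfl
    · rfl
    · rfl
  right_inv := by
    rintro ⟨⟨w, hw⟩, v⟩
    apply Prod.ext
    · apply Subtype.ext
      exact mid_mk4 _ _ _
    · funext i
      fin_cases i
      rfl
  map_add' := by
    rintro ⟨s, hs⟩ ⟨t, ht⟩
    apply Prod.ext
    · apply Subtype.ext
      exact mid_add s t
    · rfl
  map_smul' := by
    rintro r ⟨s, hs⟩
    apply Prod.ext
    · apply Subtype.ext
      funext i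
      fin_cases i <;> rfl
    · rfl

theorem UB_idl (U : Submodule R (Fin 2 → R)) (n : ℕ) (f : ℕ → ℕ) (hU : UB R n f U) :
    UB (DD R) n (fun k => psum (fun _ => 1) k + psum (psum f) k) (idl U) := by
  -- the submodule
  let A : Submodule (DD R) (idl U) :=
    { carrier := {s | mid s.1 = 0}
      add_mem' := by
        intro s t hs ht
        show mid (s.1 + t.1) = 0
        rw [mid_add, hs, ht, add_zero]
      zero_mem' := by
        show mid (0 : DD R) = 0
        funext i
        fin_cases i <;> rfl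
      smul_mem' := by
        intro r s hs
        show mid (r * s.1) = 0
        rw [mid_mul _ _ s.2.1, hs, smul_zero] }
  have hA : UB (DD R) n (psum (fun _ => 1)) A := by
    let m1 : Module (DN R) (Fin 1 → R) := Module.compHom _ (TrivSqZeroExt.fstHom R R R).toRingHom
    have h1 : UB (DN R) n (fun _ => 1) (Fin 1 → R) :=
      UB_free n 1 ⟨AddEquiv.refl _, fun d y => rfl⟩
    refine UB_dual n (fun _ => 1) (X := Fin 1 → R) ?_ h1
    refine ⟨{ toFun := fun s _ => s.1.1.snd.snd
              invFun := fun v => ⟨⟨mk4 0 0 0 (v 0), ⟨rfl, ?_⟩⟩, ?_⟩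
              left_inv := ?_
              right_inv := ?_
              map_add' := ?_ }, ?_⟩
    · have : mid (mk4 (0 : R) 0 0 (v 0)) = 0 := by
        funext i
        fin_cases i <;> rfl
      rw [this]; exact U.zero_mem
    · show mid (mk4 (0 : R) 0 0 (v 0)) = 0
      funext i
      fin_cases i <;> rfl
    · rintro ⟨⟨s, hs, hs'⟩, hs2⟩
      have hs2 : mid s = 0 := hs2
      apply Subtype.ext
      apply Subtype.ext
      apply dd_ext
      · exact hs.symm
      · exact (congrFun hs2 0).symm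
      · exact (congrFun hs2 1).symm
      · rfl
    · intro v
      funext i
      fin_cases i
      rfl
    · intro s t
      rfl
    · rintro d ⟨⟨s, hs, hs'⟩, hs2⟩
      have hs2 : mid s = 0 := hs2
      have hs0 : s.fst.snd = 0 := congrFun hs2 0
      have hs1 : s.snd.fst = 0 := congrFun hs2 1
      funext i
      show (d * s).snd.snd = d.fst.fst * s.snd.snd
      rw [dd_11, hs, hs0, hs1]
      ring
  let m2 : Module (DN R) U := Module.compHom _ (TrivSqZeroExt.fstHom R R R).toRingHom
  have hU1 : UB (DN R) n (psum f) U := UB_dual n f ⟨AddEquiv.refl _, fun d y => rfl⟩ hU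
  let m3 : Module (DD R) U := Module.compHom _ (TrivSqZeroExt.fstHom (DN R) (DN R) (DN R)).toRingHom
  have hU2 : UB (DD R) n (psum (psum f)) U :=
    UB_dual n (psum f) (X := U) ⟨AddEquiv.refl _, fun d y => rfl⟩ hU1
  let p : idl U →ₗ[DD R] U :=
    { toFun := fun s => ⟨mid s.1, s.2.2⟩
      map_add' := fun s t => Subtype.ext (mid_add s.1 t.1)
      map_smul' := fun r s => Subtype.ext (mid_mul r s.1 s.2.1) }
  refine UB.horseshoe (f := psum (fun _ => 1)) (g := psum (psum f)) A.subtype p
    Subtype.val_injective ?_ ?_ hA hU2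
  · rintro ⟨w, hw⟩
    refine ⟨⟨mk4 0 (w 0) (w 1) 0, ⟨rfl, by rw [mid_mk4]; exact hw⟩⟩, ?_⟩
    apply Subtype.ext
    exact mid_mk4 _ _ _
  · have hr : LinearMap.range A.subtype = A := Submodule.range_subtype A
    rw [hr]
    ext s
    rw [LinearMap.mem_ker]
    constructor
    · intro h
      exact Subtype.ext h
    · intro h
      exact congrArg Subtype.val h

end

theorem psum_one (k : ℕ) : psum (fun _ => 1) k = k + 1 := by
  induction k with
  | zero => rfl
  | succ k ih =>
    show 1 + psum (fun _ => 1) k = k + 1 + 1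
    rw [ih]; omega

theorem psum_const (c k : ℕ) : psum (fun _ => c) k = c * (k + 1) := by
  induction k with
  | zero =>
    show c = c * (0 + 1)
    omega
  | succ k ih =>
    show c + psum (fun _ => c) k = _
    rw [ih]; ring

theorem psum_lin (a k : ℕ) : psum (fun i => 2 * (i + a)) k = (k + 1) * (k + 2 * a) := by
  induction k generalizing a with
  | zero =>
    show 2 * (0 + a) = _
    ring
  | succ k ih =>
    have h : psum (fun i => 2 * (i + a)) (k + 1) = 2 * (0 + a) + psum (fun i => 2 * (i + 1 + a)) k :=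
      rfl
    have h2 : (fun i => 2 * (i + 1 + a)) = (fun i => 2 * (i + (a + 1))) := by
      funext i; ring
    rw [h, h2, ih (a + 1)]
    ring

theorem psum_two (k : ℕ) : psum (psum (fun _ => 2)) k = (k + 1) * (k + 2) := by
  have h : psum (fun _ => 2) = fun i => 2 * (i + 1) := by
    funext i
    rw [psum_const]
  rw [h, psum_lin]

end Pool.Agent.Lib_ae0d71
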