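import Pool.Agent.Lib_ae0d71.Alg
import Pool.Agent.Lib_ae0d71.Growth
import Pool.Agent.Lib_ae0d71.Change

set_option autoImplicit false
set_option linter.unusedSectionVars false
set_option linter.unusedVariables false

namespace Pool.Agent.Lib_ae0d71

open Function IsLocalRing

namespace A14

theorem nil4 (n : A14) (h : n 0 = 0) : n * n * (n * n) = 0 := by
  apply ext14 <;> simp [h]

theorem isUnit_iff (p : A14) : IsUnit p ↔ p 0 ≠ 0 := by
  constructor
  · rintro ⟨u, rfl⟩ h
    have h1 : (u.val * u.inv) 0 = 1 := by rw [u.val_inv]; rfl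
    rw [mul_0, h, zero_mul] at h1
    exact zero_ne_one h1
  · intro h
    let n : A14 := (p 0)⁻¹ • p - 1
    have hn0 : n 0 = 0 := by
      show (p 0)⁻¹ * p 0 - 1 = 0
      rw [inv_mul_cancel₀ h, sub_self]
    have hn : IsNilpotent n := ⟨4, by
      have := nil4 n hn0
      calc n ^ 4 = n * n * (n * n) := by ring
        _ = 0 := this⟩
    have h1 : IsUnit (1 + n) := hn.isUnit_one_add
    have h2 : p = algebraMap ℚ A14 (p 0) * (1 + n) := by
      rw [← Algebra.smul_def]
      show p = p 0 • (1 + ((p 0)⁻¹ • p - 1))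
      rw [add_sub_cancel, smul_smul, mul_inv_cancel₀ h, one_smul]
    rw [h2]
    refine IsUnit.mul ?_ h1
    exact (IsUnit.mk0 (p 0) h).map (algebraMap ℚ A14)

instance : Nontrivial A14 := ⟨⟨0, 1, fun h => by
  have : (0 : A14) 0 = (1 : A14) 0 := by rw [h]
  simp at this⟩⟩

instance : IsLocalRing A14 := IsLocalRing.of_nonunits_add (by
  intro a b ha hb
  rw [mem_nonunits_iff, isUnit_iff, not_not] at ha hb ⊢
  rw [add_ap, ha, hb, add_zero])

theorem mem_max (p : A14) : p ∈ maximalIdeal A14 ↔ p 0 = 0 := by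
  rw [mem_maximalIdeal, mem_nonunits_iff, isUnit_iff, not_not]

theorem algebraMap_0 (c : ℚ) : (algebraMap ℚ A14 c) 0 = c := by
  rw [Algebra.algebraMap_eq_smul_one]
  simp

theorem hres (r : A14) : ∃ c : ℚ, r - algebraMap ℚ A14 c ∈ maximalIdeal A14 :=
  ⟨r 0, by rw [mem_max, sub_ap, algebraMap_0, sub_self]⟩

/-- elements with no part of degree at most one -/
noncomputable def N2 : Submodule ℚ A14 where
  carrier := {p | p 0 = 0 ∧ p 1 = 0 ∧ p 2 = 0 ∧ p 3 = 0 ∧ p 4 = 0 ∧ p 5 = 0 ∧ p 6 = 0}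
  add_mem' := by
    rintro a b ⟨h0, h1, h2, h3, h4, h5, h6⟩ ⟨g0, g1, g2, g3, g4, g5, g6⟩
    simp [h0, h1, h2, h3, h4, h5, h6, g0, g1, g2, g3, g4, g5, g6]
  zero_mem' := by simp
  smul_mem' := by
    rintro c a ⟨h0, h1, h2, h3, h4, h5, h6⟩
    simp [h0, h1, h2, h3, h4, h5, h6]

theorem hm (x : A14) (hx : x ∈ maximalIdeal A14) (y : A14) (hy : y ∈ maximalIdeal A14) :
    x * y ∈ N2 := by
  rw [mem_max] at hx hy
  show _ ∧ _
  simp [hx, hy]

theorem finrank_A14 : Module.finrank ℚ A14 = 14 := by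
  show Module.finrank ℚ (Fin 14 → ℚ) = 14
  simp

theorem finrank_N2 : Module.finrank ℚ N2 = 7 := by
  let e : N2 ≃ₗ[ℚ] (Fin 7 → ℚ) :=
    { toFun := fun p => ![p.1 7, p.1 8, p.1 9, p.1 10, p.1 11, p.1 12, p.1 13]
      invFun := fun v => ⟨(![0, 0, 0, 0, 0, 0, 0, v 0, v 1, v 2, v 3, v 4, v 5, v 6] : Fin 14 → ℚ),
        ⟨rfl, rfl, rfl, rfl, rfl, rfl, rfl⟩⟩
      left_inv := by
        rintro ⟨p, h0, h1, h2, h3, h4, h5, h6⟩
        apply Subtype.ext
        exact ext14 h0.symm h1.symm h2.symm h3.symm h4.symm h5.symm h6.symm rfl rfl rfl rfl rfl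
          rfl rfl
      right_inv := by
        intro v
        funext i
        fin_cases i <;> rfl
      map_add' := by
        intro p q
        funext i
        fin_cases i <;> rfl
      map_smul' := by
        intro c p
        funext i
        fin_cases i <;> rfl }
  rw [e.finrank_eq, Module.finrank_fin_fun]

/-- basis vectors -/
def e (k : Fin 14) : A14 := fun i => if i = k then 1 else 0

theorem e_ap (k i : Fin 14) : e k i = if i = k then 1 else 0 := rfl

end A14

end Pool.Agent.Lib_ae0d71
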