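import Pool.Agent.Lib_ae0d71.TorBridge
import Pool.Agent.Lib_ae0d71.Ideals

set_option autoImplicit false
set_option linter.unusedSectionVars false
set_option linter.unusedVariables false

namespace Pool.Agent.Lib_ae0d71

open CategoryTheory Function IsLocalRing
open scoped ENNReal NNReal

/-- the ring of the example -/
abbrev S : Type := DD A14

instance S_tower : IsScalarTower ℚ S S := ⟨fun r s t => Algebra.smul_mul_assoc r s t⟩

theorem S_noeth : IsNoetherianRing S := IsNoetherianRing.of_finite ℚ S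

theorem S_artin : IsArtinianRing S := IsArtinianRing.of_finite ℚ S

theorem frob_S : Frob S := frob_A14.dual.dual

theorem Frob.congr {R Q : Type} [CommRing R] [Algebra ℚ R] [CommRing Q] [Algebra ℚ Q]
    (e : Q ≃ₐ[ℚ] R) (h : Frob R) : Frob Q := by
  obtain ⟨lam, h⟩ := h
  refine ⟨lam ∘ₗ e.toLinearMap, ?_⟩
  intro r hr
  have : e r = 0 := by
    apply h
    intro s
    have h2 : lam (e (r * e.symm s)) = 0 := hr (e.symm s)
    have h3 : e (r * e.symm s) = e r * s := by
      rw [map_mul e, AlgEquiv.apply_symm_apply]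
    rw [h3] at h2
    exact h2
  rwa [EmbeddingLike.map_eq_zero_iff] at this

theorem gor_of_frob {Q : Type} [CommRing Q] [Algebra ℚ Q] [Module.Finite ℚ Q] [IsLocalRing Q]
    (h : Frob Q) : IsGorensteinLocal Q where
  isLocal := inferInstance
  noeth := IsNoetherianRing.of_finite ℚ Q
  injdim := by
    have h1 : Module.Injective Q Q := Module.Baer.injective h.baer
    have h2 : Injective (ModuleCat.of Q Q) := Module.injective_object_of_injective_module Q Q
    have h3 := injective_iff_hasInjectiveDimensionLT_one.1 h2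
    have h4 : injectiveDimension (ModuleCat.of Q Q) < ((1 : ℕ) : WithBot ℕ∞) :=
      injectiveDimension_lt_iff.2 h3
    exact lt_of_lt_of_le h4 le_top

theorem grade_zero {Q : Type} [CommRing Q] [Nontrivial Q] (a : Ideal Q)
    (ha : ∀ r ∈ a, IsNilpotent r) : grade a = 0 := by
  unfold grade
  apply le_antisymm
  · apply sSup_le
    rintro l ⟨rs, hrs, hreg, rfl⟩
    cases rs with
    | nil => simp
    | cons r rs =>
      exfalso
      have h1 : IsSMulRegular Q r :=
        ((RingTheory.Sequence.isWeaklyRegular_cons_iff Q r rs).1 hreg.toIsWeaklyRegular).1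
      obtain ⟨n, hn⟩ := ha r (by simp [List.mem_cons] at hrs; exact hrs.1)
      have h2 : IsSMulRegular Q (r ^ n) := h1.pow n
      rw [hn] at h2
      have h3 : (0 : Q) = 1 := h2 (by simp)
      exact zero_ne_one h3
  · exact bot_le

theorem cm_of_artin (Q : Type) [CommRing Q] [IsLocalRing Q] [IsArtinianRing Q] :
    IsCohenMacaulayLocal Q where
  isLocal := inferInstance
  noeth := inferInstance
  depth_eq := by
    have h1 : grade (maximalIdeal Q) = 0 := by
      apply grade_zero
      intro r hr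
      have h2 : IsNilpotent (maximalIdeal Q) := by
        rw [← IsLocalRing.jacobson_eq_maximalIdeal (⊥ : Ideal Q) bot_ne_top]
        exact IsArtinianRing.isNilpotent_jacobson_bot
      obtain ⟨n, hn⟩ := h2
      refine ⟨n, ?_⟩
      have h3 : r ^ n ∈ (maximalIdeal Q) ^ n := Ideal.pow_mem_pow hr n
      rw [hn] at h3
      exact h3
    rw [h1]
    have h2 : Ring.KrullDimLE 0 Q := inferInstance
    rw [ringKrullDimZero_iff_ringKrullDim_eq_zero] at h2
    rw [h2]
    rfl

theorem quot_local {Q : Type} [CommRing Q] [IsLocalRing Q] (I : Ideal Q) (hI : I ≠ ⊤) :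
    IsLocalRing (Q ⧸ I) := by
  have : Nontrivial (Q ⧸ I) := Ideal.Quotient.nontrivial_iff.2 hI
  exact IsLocalRing.of_surjective' (Ideal.Quotient.mk I) Ideal.Quotient.mk_surjective

theorem perfect_bot (Q : Type) [CommRing Q] [Algebra ℚ Q] [Module.Finite ℚ Q] [IsLocalRing Q]
    (h : Frob Q) : IsGorensteinPerfect (⊥ : Ideal Q) where
  pd_eq := by
    have h1 : grade (⊥ : Ideal Q) = 0 := by
      apply grade_zero
      intro r hr
      rw [Ideal.mem_bot] at hr
      rw [hr]
      exact IsNilpotent.zero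
    rw [h1]
    have h2 : Projective (ModuleCat.of Q (Q ⧸ (⊥ : Ideal Q))) := by
      have h3 : Module.Projective Q (Q ⧸ (⊥ : Ideal Q)) :=
        Module.Projective.of_equiv (Submodule.quotEquivOfEqBot (⊥ : Ideal Q) rfl).symm
      exact (IsProjective.iff_projective (Q ⧸ (⊥ : Ideal Q))).1 h3
    refine (projectiveDimension_eq_zero_iff _).2 ⟨h2, ?_⟩
    intro h3
    have h4 : Subsingleton (Q ⧸ (⊥ : Ideal Q)) := ModuleCat.subsingleton_of_isZero h3
    have h5 : Nontrivial (Q ⧸ (⊥ : Ideal Q)) := Ideal.Quotient.nontrivial_iff.2 bot_ne_top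
    exact not_subsingleton _ h4
  grade_lt := by
    have h1 : grade (⊥ : Ideal Q) = 0 := by
      apply grade_zero
      intro r hr
      rw [Ideal.mem_bot] at hr
      rw [hr]
      exact IsNilpotent.zero
    rw [h1]
    exact ENat.natCast_lt_top 0
  gor := by
    have h1 : IsLocalRing (Q ⧸ (⊥ : Ideal Q)) := quot_local _ bot_ne_top
    have e : (Q ⧸ (⊥ : Ideal Q)) ≃ₐ[ℚ] Q := AlgEquiv.quotientBot ℚ Q
    have h2 : Module.Finite ℚ (Q ⧸ (⊥ : Ideal Q)) := Module.Finite.equiv e.symm.toLinearEquiv
    exact gor_of_frob (Frob.congr e h)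

/-! ### the two ideals -/

theorem perp_U (w : Fin 2 → A14) : w ∈ A14.X ↔
    ∀ u ∈ LinearMap.range (A14.dt 2), u 0 * w 1 + u 1 * w 0 = 0 := by
  have key : ∀ v : Fin 2 → A14, A14.dt 2 v 0 * w 1 + A14.dt 2 v 1 * w 0 =
      v 0 * A14.psi w 0 + v 1 * A14.psi w 1 := by
    intro v
    rw [A14.dt_0, A14.dt_1, A14.psi_0, A14.psi_1]
    ring
  constructor
  · intro hw u hu
    obtain ⟨v, rfl⟩ := hu
    have h0 : A14.psi w = 0 := hw
    rw [key, h0]
    simp
  · intro h
    show A14.psi w = 0
    funext i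
    fin_cases i
    · have h1 := h _ ⟨![1, 0], rfl⟩
      rw [key] at h1
      simpa using h1
    · have h1 := h _ ⟨![0, 1], rfl⟩
      rw [key] at h1
      simpa using h1

theorem S_comm (s t : S) : s * t = t * s := mul_comm s t

noncomputable def II : Ideal S := idl (LinearMap.range (A14.dt 2))

noncomputable def JJ : Ideal S := idl A14.X

theorem mem_JJ (t : S) : t ∈ JJ ↔ ∀ s ∈ II, s * t = 0 :=
  ann_idl (LinearMap.range (A14.dt 2)) A14.X perp_U t

theorem mem_II (t : S) : t ∈ II ↔ ∀ s ∈ JJ, s * t = 0 := by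
  constructor
  · intro ht s hs
    rw [S_comm]
    exact (mem_JJ s).1 hs t ht
  · intro h
    apply Frob.ann_ann frob_S
    intro a ha
    apply h
    rw [mem_JJ]
    intro s hs
    rw [S_comm]
    exact ha s hs

theorem linked : IsLinkedBy (R := S) ⊥ II JJ where
  le_left := bot_le
  le_right := bot_le
  left_eq := by
    ext t
    rw [mem_II, Submodule.mem_colon]
    constructor
    · intro h s hs
      rw [Ideal.mem_bot, smul_eq_mul, S_comm]
      exact h s hs
    · intro h s hs
      have := h s hs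
      rw [Ideal.mem_bot, smul_eq_mul, S_comm] at this
      exact this
  right_eq := by
    ext t
    rw [mem_JJ, Submodule.mem_colon]
    constructor
    · intro h s hs
      rw [Ideal.mem_bot, smul_eq_mul, S_comm]
      exact h s hs
    · intro h s hs
      have := h s hs
      rw [Ideal.mem_bot, smul_eq_mul, S_comm] at this
      exact this

theorem II_ne_top : II ≠ ⊤ := by
  intro h
  have h1 : (1 : S) ∈ II := by rw [h]; trivial
  have h2 : (1 : S).fst.fst = 0 := h1.1
  exact one_ne_zero (α := A14) h2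

theorem JJ_ne_top : JJ ≠ ⊤ := by
  intro h
  have h1 : (1 : S) ∈ JJ := by rw [h]; trivial
  have h2 : (1 : S).fst.fst = 0 := h1.1
  exact one_ne_zero (α := A14) h2

theorem finrank_S : Module.finrank A14 S = 4 := by
  have h1 : Module.finrank A14 S = Module.finrank A14 (DN A14 × DN A14) :=
    (dnE A14 (DN A14)).finrank_eq
  have h2 : Module.finrank A14 (DN A14) = Module.finrank A14 (A14 × A14) :=
    (dnE A14 A14).finrank_eq
  have h3 : Module.Free A14 (DN A14) := dn_free A14 A14
  rw [h1, Module.finrank_prod, h2, Module.finrank_prod, Module.finrank_self]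

theorem betti_II (n : ℕ) : betti S II n ≤ ((n + 1) * (n + 3) : ℕ) := by
  have := S_noeth
  obtain ⟨P⟩ := exists_minRes (R := S) II
  rw [P.betti_eq]
  have h1 := P.rank_le' n _ (UB_idl (LinearMap.range (A14.dt 2)) n (fun _ => 2)
    (A14.UB_range n 2 le_rfl))
  have h2 : psum (fun _ => 1) n + psum (psum (fun _ => 2)) n = (n + 1) * (n + 3) := by
    rw [psum_one, psum_two]; ring
  have h3 : P.rank n ≤ (n + 1) * (n + 3) := h2 ▸ h1
  exact_mod_cast h3

theorem betti_JJ (n : ℕ) : ∃ b : ℕ, betti S JJ n = b ∧ 3 * 2 ^ n ≤ b * 4 := by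
  have := S_noeth
  obtain ⟨P⟩ := exists_minRes (R := S) JJ
  have hA : IsNoetherianRing A14 := IsNoetherianRing.of_finite ℚ A14
  obtain ⟨P'⟩ := exists_minRes (R := A14) A14.X
  refine ⟨P.rank n, P.betti_eq n, ?_⟩
  have h1 := A14.X_growth P' n
  have hf1 : Module.Free A14 (DN A14) := dn_free A14 A14
  have hf2 : Module.Free A14 S := dn_free A14 (DN A14)
  have hfin : Module.Finite A14 S := dn_finite A14 (DN A14)
  have h2 : UB A14 n (fun k => P.rank k * Module.finrank A14 S) JJ :=
    UB_restrict (R := A14) (D := S) n P.rank (P.UB n)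
  have h3 := h2.congr (idlE A14.X)
  have h4 := P'.rank_le n _ 1 h3
  rw [finrank_S] at h4
  exact h1.trans h4

end Pool.Agent.Lib_ae0d71
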