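import Pool.Agent.Lib_ae0d71.UB

set_option autoImplicit false
set_option linter.unusedSectionVars false
set_option linter.unusedVariables false

namespace Pool.Agent.Lib_ae0d71

open Function IsLocalRing

/-- A minimal free resolution of the module `X` over the local ring `R`, by free modules of
finite rank. -/
structure MinRes (R : Type) [CommRing R] [IsLocalRing R] (X : Type) [AddCommGroup X]
    [Module R X] where
  rank : ℕ → ℕ
  d : ∀ n, (Fin (rank (n + 1)) → R) →ₗ[R] (Fin (rank n) → R)
  aug : (Fin (rank 0) → R) →ₗ[R] X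
  surj : Surjective aug
  exact_zero : LinearMap.range (d 0) = LinearMap.ker aug
  exact_succ : ∀ n, LinearMap.range (d (n + 1)) = LinearMap.ker (d n)
  minimal : ∀ n, LinearMap.range (d n) ≤ maximalIdeal R • (⊤ : Submodule R (Fin (rank n) → R))

variable {R : Type} [CommRing R] [IsLocalRing R]

section
variable {X : Type} [AddCommGroup X] [Module R X]

/-- the resolution of the first syzygy -/
def MinRes.tail (P : MinRes R X) : MinRes R (LinearMap.ker P.aug) where
  rank n := P.rank (n + 1)
  d n := P.d (n + 1)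
  aug := LinearMap.codRestrict _ (P.d 0) (fun v => P.exact_zero ▸ LinearMap.mem_range_self _ v)
  surj := by
    rintro ⟨x, hx⟩
    rw [← P.exact_zero] at hx
    obtain ⟨v, hv⟩ := hx
    exact ⟨v, Subtype.ext hv⟩
  exact_zero := by
    rw [LinearMap.ker_codRestrict]
    exact P.exact_succ 0
  exact_succ n := P.exact_succ (n + 1)
  minimal n := P.minimal (n + 1)

theorem MinRes.ker_le (P : MinRes R X) :
    LinearMap.ker P.aug ≤ maximalIdeal R • (⊤ : Submodule R (Fin (P.rank 0) → R)) := by
  rw [← P.exact_zero]; exact P.minimal 0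

/-- transport along an isomorphism -/
def MinRes.congr (P : MinRes R X) {Y : Type} [AddCommGroup Y] [Module R Y] (e : X ≃ₗ[R] Y) :
    MinRes R Y where
  rank := P.rank
  d := P.d
  aug := e.toLinearMap ∘ₗ P.aug
  surj := e.surjective.comp P.surj
  exact_zero := by rw [LinearEquiv.ker_comp]; exact P.exact_zero
  exact_succ := P.exact_succ
  minimal := P.minimal

theorem MinRes.UB (P : MinRes R X) (n : ℕ) : UB R n P.rank X := by
  induction n generalizing X with
  | zero => exact ⟨P.aug, P.surj⟩
  | succ n ih => exact ⟨P.aug, P.surj, ih P.tail⟩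

end

theorem range_eq_top_of_minimal {F G Z : Type} [AddCommGroup F] [Module R F] [AddCommGroup G]
    [Module R G] [AddCommGroup Z] [Module R Z] [Module.Finite R G] (ψ : G →ₗ[R] Z)
    (hψ : LinearMap.ker ψ ≤ maximalIdeal R • (⊤ : Submodule R G)) (α : F →ₗ[R] G)
    (hα : Surjective (ψ ∘ₗ α)) : Surjective α := by
  rw [← LinearMap.range_eq_top, eq_top_iff]
  refine Submodule.le_of_le_smul_of_le_jacobson_bot (I := maximalIdeal R)
    Module.Finite.fg_top (IsLocalRing.jacobson_eq_maximalIdeal _ bot_ne_top).ge ?_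
  intro g _
  obtain ⟨v, hv⟩ := hα (ψ g)
  have h1 : g - α v ∈ LinearMap.ker ψ := by
    rw [LinearMap.mem_ker, map_sub, ← hv]
    simp
  have h2 : g = α v + (g - α v) := by abel
  rw [h2]
  exact Submodule.add_mem_sup (LinearMap.mem_range_self _ _) (hψ h1)

theorem ker_prodMap_le {b s : ℕ} {X : Type} [AddCommGroup X] [Module R X]
    (π : (Fin b → R) →ₗ[R] X)
    (hmin : LinearMap.ker π ≤ maximalIdeal R • (⊤ : Submodule R (Fin b → R))) :
    LinearMap.ker (π.prodMap (LinearMap.id : (Fin s → R) →ₗ[R] (Fin s → R))) ≤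
      maximalIdeal R • (⊤ : Submodule R ((Fin b → R) × (Fin s → R))) := by
  rintro ⟨u, v⟩ huv
  rw [LinearMap.mem_ker, LinearMap.prodMap_apply, Prod.mk_eq_zero] at huv
  obtain ⟨hu, hv⟩ := huv
  have hv : v = 0 := hv
  subst hv
  have h1 : u ∈ maximalIdeal R • (⊤ : Submodule R (Fin b → R)) := hmin hu
  have h2 : (LinearMap.inl R (Fin b → R) (Fin s → R)) u ∈
      Submodule.map (LinearMap.inl R (Fin b → R) (Fin s → R))
        (maximalIdeal R • (⊤ : Submodule R (Fin b → R))) := Submodule.mem_map_of_mem h1
  rw [Submodule.map_smul''] at h2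
  exact Submodule.smul_mono le_rfl le_top h2

/-- Comparison of an arbitrary free cover with a minimal one. -/
theorem cover {b f s : ℕ} {X : Type} [AddCommGroup X] [Module R X]
    (π : (Fin b → R) →ₗ[R] X) (hπ : Surjective π)
    (hmin : LinearMap.ker π ≤ maximalIdeal R • (⊤ : Submodule R (Fin b → R)))
    (φ : (Fin f → R) →ₗ[R] X × (Fin s → R)) (hφ : Surjective φ) :
    b + s ≤ f ∧ ∃ c : ℕ, Nonempty (LinearMap.ker φ ≃ₗ[R] LinearMap.ker π × (Fin c → R)) := by
  let ψ : (Fin b → R) × (Fin s → R) →ₗ[R] X × (Fin s → R) := π.prodMap LinearMap.id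
  have hψs : Surjective ψ := by
    rintro ⟨x, v⟩
    obtain ⟨u, hu⟩ := hπ x
    exact ⟨(u, v), by rw [LinearMap.prodMap_apply, hu]; rfl⟩
  obtain ⟨α, hα⟩ := Module.projective_lifting_property ψ φ hψs
  have hαs : Surjective α :=
    range_eq_top_of_minimal ψ (ker_prodMap_le π hmin) α (by rw [hα]; exact hφ)
  have hα' : ∀ v, ψ (α v) = φ v := fun v => by rw [← hα]; rfl
  refine ⟨?_, ?_⟩
  · have h1 := LinearMap.finrank_le_finrank_of_surjective (f := α) hαs
    rw [Module.finrank_prod, Module.finrank_fin_fun, Module.finrank_fin_fun,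
      Module.finrank_fin_fun] at h1
    exact h1
  · obtain ⟨σ, hσ⟩ := Module.projective_lifting_property α LinearMap.id hαs
    have hσ' : ∀ g, α (σ g) = g := fun g => by
      have := congrArg (fun h => h g) hσ
      exact this
    -- the kernel of α is a finite projective module
    let ρ : (Fin f → R) →ₗ[R] LinearMap.ker α :=
      LinearMap.codRestrict _ (LinearMap.id - σ ∘ₗ α) (fun v => by
        rw [LinearMap.mem_ker]
        show α (v - σ (α v)) = 0
        rw [map_sub, hσ', sub_self])
    have hρ : ρ ∘ₗ (LinearMap.ker α).subtype = LinearMap.id := by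
      apply LinearMap.ext
      rintro ⟨v, hv⟩
      apply Subtype.ext
      show v - σ (α v) = v
      rw [LinearMap.mem_ker] at hv
      rw [hv, map_zero, sub_zero]
    have hproj : Module.Projective R (LinearMap.ker α) :=
      Module.Projective.of_split (LinearMap.ker α).subtype ρ hρ
    have hfin : Module.Finite R (LinearMap.ker α) :=
      Module.Finite.of_surjective ρ (fun w => ⟨w.1, by
        have := congrArg (fun h => h w) hρ
        exact this⟩)
    have hfree : Module.Free R (LinearMap.ker α) := Module.free_of_flat_of_isLocalRing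
    let bs := Module.finBasis R (LinearMap.ker α)
    refine ⟨Module.finrank R (LinearMap.ker α), ⟨?_⟩⟩
    let e1 : LinearMap.ker α ≃ₗ[R] (Fin (Module.finrank R (LinearMap.ker α)) → R) :=
      bs.equivFun
    -- ker φ ≃ ker π × ker α
    have hk : ∀ v ∈ LinearMap.ker φ, (α v).1 ∈ LinearMap.ker π ∧ (α v).2 = 0 := by
      intro v hv
      rw [LinearMap.mem_ker, ← hα'] at hv
      have h1 : (π (α v).1, (α v).2) = (0 : X × (Fin s → R)) := hv
      rw [Prod.mk_eq_zero] at h1
      exact ⟨h1.1, h1.2⟩
    let t : LinearMap.ker φ →ₗ[R] LinearMap.ker π × LinearMap.ker α :=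
      LinearMap.prod
        (LinearMap.codRestrict _ ((LinearMap.fst R _ _) ∘ₗ α ∘ₗ (LinearMap.ker φ).subtype)
          (fun v => (hk v.1 v.2).1))
        (ρ ∘ₗ (LinearMap.ker φ).subtype)
    have ht : Bijective t := by
      constructor
      · intro x y hxy
        apply Subtype.ext
        have h1 : (α x.1).1 = (α y.1).1 := congrArg (fun z => (z.1.1 : Fin b → R)) hxy
        have h2 : x.1 - σ (α x.1) = y.1 - σ (α y.1) :=
          congrArg (fun z => (z.2.1 : Fin f → R)) hxy
        have h3 : α x.1 = α y.1 := Prod.ext h1 ((hk x.1 x.2).2.trans (hk y.1 y.2).2.symm)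
        rw [h3] at h2
        exact sub_left_injective h2
      · rintro ⟨⟨u, hu⟩, ⟨w, hw⟩⟩
        rw [LinearMap.mem_ker] at hu hw
        have h1 : α (σ (u, 0) + w) = (u, 0) := by rw [map_add, hσ', hw, add_zero]
        have h0 : φ (σ (u, 0) + w) = 0 := by
          rw [← hα', h1]
          show ((π u, (0 : Fin s → R)) : X × (Fin s → R)) = 0
          rw [hu]; rfl
        refine ⟨⟨σ (u, 0) + w, h0⟩, ?_⟩
        apply Prod.ext
        · apply Subtype.ext
          show (α (σ (u, 0) + w)).1 = u
          rw [h1]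
        · apply Subtype.ext
          show (σ (u, 0) + w) - σ (α (σ (u, 0) + w)) = w
          rw [h1]; abel
    exact (LinearEquiv.ofBijective t ht).trans
      (LinearEquiv.prodCongr (LinearEquiv.refl R _) e1)

/-- The ranks of a minimal free resolution are at most the ranks of any free resolution; the
module may be enlarged by a free summand. -/
theorem MinRes.rank_le {X : Type} [AddCommGroup X] [Module R X] (P : MinRes R X) (n : ℕ)
    (f : ℕ → ℕ) (s : ℕ) (h : Pool.Agent.Lib_ae0d71.UB R n f (X × (Fin s → R))) :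
    P.rank n ≤ f n := by
  induction n generalizing X f s with
  | zero =>
    obtain ⟨φ, hφ⟩ := h
    have := (cover P.aug P.surj P.ker_le φ hφ).1
    omega
  | succ n ih =>
    obtain ⟨φ, hφ, hk⟩ := h
    obtain ⟨c, ⟨e⟩⟩ := (cover P.aug P.surj P.ker_le φ hφ).2
    exact ih P.tail _ c (hk.congr e)

theorem MinRes.rank_le' {X : Type} [AddCommGroup X] [Module R X] (P : MinRes R X) (n : ℕ)
    (f : ℕ → ℕ) (h : Pool.Agent.Lib_ae0d71.UB R n f X) : P.rank n ≤ f n := by
  refine P.rank_le n f 0 (h.congr ?_)
  exact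
    { toFun := fun x => (x, 0)
      invFun := fun x => x.1
      left_inv := fun x => rfl
      right_inv := fun x => Prod.ext rfl (Subsingleton.elim _ _)
      map_add' := fun x y => by simp
      map_smul' := fun r x => by simp }

theorem MinRes.rank_eq {X : Type} [AddCommGroup X] [Module R X] (P Q : MinRes R X) (n : ℕ) :
    P.rank n = Q.rank n :=
  le_antisymm (P.rank_le' n _ (Q.UB n)) (Q.rank_le' n _ (P.UB n))

end Pool.Agent.Lib_ae0d71
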