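import Pool.Agent.Lib_ae0d71.Exist
import Pool.Agent.Lib_ae0d71.Defs

set_option autoImplicit false
set_option linter.unusedSectionVars false
set_option linter.unusedVariables false

namespace Pool.Agent.Lib_ae0d71

open CategoryTheory CategoryTheory.Limits IsLocalRing
open scoped TensorProduct

noncomputable section

variable {R : Type} [CommRing R] [IsLocalRing R] {X : Type} [AddCommGroup X] [Module R X]

def MinRes.obj (P : MinRes R X) (n : ℕ) : ModuleCat.{0} R := ModuleCat.of R (Fin (P.rank n) → R)

def MinRes.mor (P : MinRes R X) (n : ℕ) : P.obj (n + 1) ⟶ P.obj n := ModuleCat.ofHom (P.d n)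

def MinRes.eps (P : MinRes R X) : P.obj 0 ⟶ ModuleCat.of R X := ModuleCat.ofHom P.aug

theorem MinRes.mor_comp (P : MinRes R X) (n : ℕ) : P.mor (n + 1) ≫ P.mor n = 0 := by
  apply ModuleCat.hom_ext
  apply LinearMap.ext
  intro v
  have : P.d (n + 1) v ∈ LinearMap.ker (P.d n) := P.exact_succ n ▸ LinearMap.mem_range_self _ v
  exact this

theorem MinRes.mor_eps (P : MinRes R X) : P.mor 0 ≫ P.eps = 0 := by
  apply ModuleCat.hom_ext
  apply LinearMap.ext
  intro v
  have : P.d 0 v ∈ LinearMap.ker P.aug := P.exact_zero ▸ LinearMap.mem_range_self _ v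
  exact this

/-- the complex of a minimal resolution -/
def MinRes.cpx (P : MinRes R X) : ChainComplex (ModuleCat.{0} R) ℕ :=
  ChainComplex.of P.obj P.mor P.mor_comp

theorem MinRes.cpx_d (P : MinRes R X) (n : ℕ) : P.cpx.d (n + 1) n = P.mor n :=
  ChainComplex.of_d P.obj P.mor n

theorem MinRes.exactAt_succ (P : MinRes R X) (n : ℕ) : P.cpx.ExactAt (n + 1) := by
  rw [HomologicalComplex.exactAt_iff' _ (n + 1 + 1) (n + 1) n (by simp) (by simp)]
  rw [ShortComplex.moduleCat_exact_iff_range_eq_ker]
  show LinearMap.range (P.cpx.d (n + 1 + 1) (n + 1)).hom = LinearMap.ker (P.cpx.d (n + 1) n).hom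
  rw [P.cpx_d, P.cpx_d]
  exact P.exact_succ n

instance (P : MinRes R X) (n : ℕ) : Projective (P.obj n) :=
  ModuleCat.projective_of_free (M := P.obj n) (Pi.basisFun R (Fin (P.rank n)))

theorem MinRes.exact_epi (P : MinRes R X) :
    (ShortComplex.mk (P.mor 0) P.eps P.mor_eps).Exact ∧ Epi P.eps := by
  constructor
  · rw [ShortComplex.moduleCat_exact_iff_range_eq_ker]
    exact P.exact_zero
  · rw [ModuleCat.epi_iff_surjective]
    exact P.surj

/-- the projective resolution -/
def MinRes.res (P : MinRes R X) : ProjectiveResolution (ModuleCat.of R X) where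
  complex := P.cpx
  projective := fun n => inferInstanceAs (Projective (P.obj n))
  π := (ChainComplex.toSingle₀Equiv _ _).symm ⟨P.eps, by
      have h : P.cpx.d 1 0 = P.mor 0 := P.cpx_d 0
      rw [h]
      exact P.mor_eps⟩
  quasiIso := ⟨fun n => by
    cases n
    · rw [ChainComplex.quasiIsoAt₀_iff, ShortComplex.quasiIso_iff_of_zeros']
      · refine (ShortComplex.exact_and_epi_g_iff_of_iso ?_).2 P.exact_epi
        refine ShortComplex.isoMk (Iso.refl _) (Iso.refl _) (Iso.refl _) ?_ ?_
        · exact (Category.id_comp _).trans ((P.cpx_d 0).symm.trans (Category.comp_id _).symm)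
        · simp
          rfl
      all_goals rfl
    · rw [quasiIsoAt_iff_exactAt']
      · apply P.exactAt_succ
      · apply ChainComplex.exactAt_succ_single_obj⟩

theorem whisker_zero {A B : ModuleCat.{0} R} (f : A ⟶ B)
    (hf : ∀ a, f.hom a ∈ maximalIdeal R • (⊤ : Submodule R B)) :
    MonoidalCategoryStruct.whiskerLeft (ModuleCat.of R (ResidueField R)) f = 0 := by
  apply ModuleCat.MonoidalCategory.tensor_ext
  intro x a
  show x ⊗ₜ[R] (f.hom a) = 0
  have key : ∀ b ∈ maximalIdeal R • (⊤ : Submodule R B), (x : ResidueField R) ⊗ₜ[R] (b : B) = 0 := by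
    intro b hb
    refine Submodule.smul_induction_on hb ?_ ?_
    · intro r hr n _
      rw [← TensorProduct.smul_tmul]
      have h1 : r • (x : ResidueField R) = 0 := by
        rw [Algebra.smul_def]
        have h2 : algebraMap R (ResidueField R) r = 0 :=
          Ideal.Quotient.eq_zero_iff_mem.2 hr
        rw [h2, zero_mul]
      rw [h1, TensorProduct.zero_tmul]
    · intro u v hu hv
      rw [TensorProduct.tmul_add, hu, hv, add_zero]
  exact key _ (hf a)

/-- the functor `k ⊗ -` -/
abbrev kT (R : Type) [CommRing R] [IsLocalRing R] : ModuleCat.{0} R ⥤ ModuleCat.{0} R :=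
  (MonoidalCategory.tensoringLeft (ModuleCat.{0} R)).obj (ModuleCat.of R (ResidueField R))

theorem MinRes.kT_d (P : MinRes R X) (i j : ℕ) :
    (((kT R).mapHomologicalComplex _).obj P.cpx).d i j = 0 := by
  show (kT R).map (P.cpx.d i j) = 0
  by_cases h : i = j + 1
  · subst h
    rw [P.cpx_d]
    exact whisker_zero (P.mor j) (fun a => P.minimal j (LinearMap.mem_range_self _ a))
  · have : P.cpx.d i j = 0 := P.cpx.shape _ _ (fun h' => h h'.symm)
    rw [this, Functor.map_zero]

/-- `Tor_n(k, X) ≅ k ⊗ R^(b_n)` -/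
def MinRes.torIso (P : MinRes R X) (n : ℕ) :
    ((Tor (ModuleCat.{0} R) n).obj (ModuleCat.of R (ResidueField R))).obj (ModuleCat.of R X) ≅
      (kT R).obj (P.obj n) :=
  (P.res.isoLeftDerivedObj (kT R) n) ≪≫
    (HomologicalComplex.isoHomologyπ (((kT R).mapHomologicalComplex _).obj P.cpx) _ n rfl
      (P.kT_d _ _)).symm ≪≫
    (HomologicalComplex.iCyclesIso (((kT R).mapHomologicalComplex _).obj P.cpx) n _ rfl
      (P.kT_d _ _))

theorem length_residue : Module.length R (ResidueField R) = 1 := by
  rw [Module.length_eq_one_iff]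
  exact isSimpleModule_iff_isCoatom.2 (IsLocalRing.maximalIdeal.isMaximal R).out

theorem MinRes.betti_eq (P : MinRes R X) (n : ℕ) : betti R X n = P.rank n := by
  unfold betti
  rw [(P.torIso n).toLinearEquiv.length_eq]
  show Module.length R ((ResidueField R) ⊗[R] (Fin (P.rank n) → R)) = _
  rw [(TensorProduct.piScalarRight R R (ResidueField R) (Fin (P.rank n))).length_eq]
  rw [Module.length_pi, length_residue]
  simp

end

end Pool.Agent.Lib_ae0d71
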