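import Mathlib

set_option autoImplicit false
set_option linter.unusedSectionVars false
set_option linter.unusedVariables false

namespace Pool.Agent.Lib_ae0d71

open Function

/-- `UB R n f X`: the `R`-module `X` has the first `n + 1` terms of a resolution by finite free
modules of ranks `f 0, f 1, ..., f n`. -/
def UB (R : Type) [CommRing R] : ℕ → (ℕ → ℕ) →
    ∀ (X : Type) [AddCommGroup X] [Module R X], Prop
  | 0, f, X, _, _ => ∃ φ : (Fin (f 0) → R) →ₗ[R] X, Surjective φ
  | n + 1, f, X, _, _ => ∃ φ : (Fin (f 0) → R) →ₗ[R] X, Surjective φ ∧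
      UB R n (fun i => f (i + 1)) (LinearMap.ker φ)

variable {R : Type} [CommRing R]

theorem UB.congr {n : ℕ} {f : ℕ → ℕ} {X Y : Type} [AddCommGroup X] [Module R X]
    [AddCommGroup Y] [Module R Y] (e : X ≃ₗ[R] Y) (h : UB R n f X) : UB R n f Y := by
  cases n with
  | zero =>
    obtain ⟨φ, hφ⟩ := h
    exact ⟨e.toLinearMap ∘ₗ φ, e.surjective.comp hφ⟩
  | succ n =>
    obtain ⟨φ, hφ, hk⟩ := h
    refine ⟨e.toLinearMap ∘ₗ φ, e.surjective.comp hφ, ?_⟩
    have : LinearMap.ker (e.toLinearMap ∘ₗ φ) = LinearMap.ker φ := LinearEquiv.ker_comp e φ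
    rw [this]
    exact hk

/-- covering by a free module given up to isomorphism -/
theorem UB.of_cover {n : ℕ} {f : ℕ → ℕ} {X P : Type} [AddCommGroup X] [Module R X]
    [AddCommGroup P] [Module R P] (e : (Fin (f 0) → R) ≃ₗ[R] P) (φ : P →ₗ[R] X)
    (hφ : Surjective φ) (h : UB R n (fun i => f (i + 1)) (LinearMap.ker φ)) :
    UB R (n + 1) f X := by
  refine ⟨φ ∘ₗ e.toLinearMap, hφ.comp e.surjective, ?_⟩
  refine UB.congr ?_ h
  -- ker φ ≃ ker (φ ∘ e)
  refine (LinearEquiv.ofBijective
    ((e.toLinearMap.restrict (p := LinearMap.ker (φ ∘ₗ e.toLinearMap)) (q := LinearMap.ker φ) ?_))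
    ⟨?_, ?_⟩).symm
  · intro x hx
    exact hx
  · intro x y hxy
    have := congrArg Subtype.val hxy
    exact Subtype.ext (e.injective this)
  · rintro ⟨y, hy⟩
    refine ⟨⟨e.symm y, ?_⟩, ?_⟩
    · rw [LinearMap.mem_ker]
      show φ (e (e.symm y)) = 0
      rw [e.apply_symm_apply]; exact hy
    · exact Subtype.ext (e.apply_symm_apply y)

theorem UB.zero (n : ℕ) (f : ℕ → ℕ) {X : Type} [AddCommGroup X] [Module R X]
    (hf : ∀ i, f i = 0) (hX : ∀ x : X, x = 0) : UB R n f X := by
  induction n generalizing f X with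
  | zero => exact ⟨0, fun x => ⟨0, by rw [hX x]; simp⟩⟩
  | succ n ih =>
    refine ⟨0, fun x => ⟨0, by rw [hX x]; simp⟩, ?_⟩
    refine ih _ (fun i => hf (i + 1)) ?_
    rintro ⟨x, hx⟩
    apply Subtype.ext
    have := hf 0
    funext i
    exact absurd i.isLt (by omega)

/-- splitting a power -/
noncomputable def appE (R : Type) [CommRing R] (a b : ℕ) :
    (Fin (a + b) → R) ≃ₗ[R] (Fin a → R) × (Fin b → R) :=
  (LinearEquiv.funCongrLeft R R finSumFinEquiv).trans
    (LinearEquiv.sumArrowLequivProdArrow (Fin a) (Fin b) R R)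

theorem UB.horseshoe {n : ℕ} {f g : ℕ → ℕ} {A B C : Type} [AddCommGroup A] [Module R A]
    [AddCommGroup B] [Module R B] [AddCommGroup C] [Module R C] (i : A →ₗ[R] B) (p : B →ₗ[R] C)
    (hi : Injective i) (hp : Surjective p) (hip : LinearMap.range i = LinearMap.ker p)
    (hA : UB R n f A) (hC : UB R n g C) : UB R n (fun k => f k + g k) B := by
  induction n generalizing f g A B C with
  | zero =>
    obtain ⟨φ, hφ⟩ := hA
    obtain ⟨ψ, hψ⟩ := hC
    obtain ⟨l, hl⟩ := Module.projective_lifting_property p ψ hp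
    have key : Surjective (LinearMap.coprod (i ∘ₗ φ) l) := by
      intro b
      obtain ⟨v, hv⟩ := hψ (p b)
      have h1 : b - l v ∈ LinearMap.range i := by
        rw [hip, LinearMap.mem_ker, map_sub, ← hv, ← hl]
        simp
      obtain ⟨a, ha⟩ := h1
      obtain ⟨u, hu⟩ := hφ a
      refine ⟨(u, v), ?_⟩
      rw [LinearMap.coprod_apply]
      show i (φ u) + l v = b
      rw [hu, ha]; abel
    exact ⟨(LinearMap.coprod (i ∘ₗ φ) l) ∘ₗ (appE R (f 0) (g 0)).toLinearMap,
      key.comp (appE R (f 0) (g 0)).surjective⟩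
  | succ n ih =>
    obtain ⟨φ, hφ, hKA⟩ := hA
    obtain ⟨ψ, hψ, hKC⟩ := hC
    obtain ⟨l, hl⟩ := Module.projective_lifting_property p ψ hp
    have hl' : ∀ v, p (l v) = ψ v := fun v => by rw [← hl]; rfl
    have hpi : ∀ a, p (i a) = 0 := fun a => by
      have : i a ∈ LinearMap.ker p := hip ▸ LinearMap.mem_range_self i a
      exact this
    refine UB.of_cover (f := fun k => f k + g k) (appE R (f 0) (g 0))
      (LinearMap.coprod (i ∘ₗ φ) l) ?_ ?_
    · intro b
      obtain ⟨v, hv⟩ := hψ (p b)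
      have h1 : b - l v ∈ LinearMap.range i := by
        rw [hip, LinearMap.mem_ker, map_sub, ← hv, hl', sub_self]
      obtain ⟨a, ha⟩ := h1
      obtain ⟨u, hu⟩ := hφ a
      refine ⟨(u, v), ?_⟩
      rw [LinearMap.coprod_apply]
      show i (φ u) + l v = b
      rw [hu, ha]; abel
    · let Φ := LinearMap.coprod (i ∘ₗ φ) l
      have hΦ : ∀ u v, Φ (u, v) = i (φ u) + l v := fun u v => by
        rw [LinearMap.coprod_apply]; rfl
      -- the two maps
      let j : LinearMap.ker φ →ₗ[R] LinearMap.ker Φ :=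
        LinearMap.codRestrict _ ((LinearMap.inl R _ _) ∘ₗ (LinearMap.ker φ).subtype) (by
          rintro ⟨u, hu⟩
          rw [LinearMap.mem_ker] at hu ⊢
          show Φ (u, 0) = 0
          rw [hΦ, hu, map_zero, map_zero, add_zero])
      let q : LinearMap.ker Φ →ₗ[R] LinearMap.ker ψ :=
        LinearMap.codRestrict _ ((LinearMap.snd R _ _) ∘ₗ (LinearMap.ker Φ).subtype) (by
          rintro ⟨⟨u, v⟩, huv⟩
          rw [LinearMap.mem_ker] at huv ⊢
          rw [hΦ] at huv
          show ψ v = 0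
          have := congrArg p huv
          rw [map_add, hpi, zero_add, hl', map_zero] at this
          exact this)
      refine ih (f := fun k => f (k + 1)) (g := fun k => g (k + 1)) j q ?_ ?_ ?_ hKA hKC
      · intro x y hxy
        have h1 := congrArg (fun z => (z.1 : (Fin (f 0) → R) × (Fin (g 0) → R)).1) hxy
        exact Subtype.ext h1
      · rintro ⟨v, hv⟩
        rw [LinearMap.mem_ker] at hv
        have h1 : l v ∈ LinearMap.range i := by
          rw [hip, LinearMap.mem_ker, hl', hv]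
        obtain ⟨a, ha⟩ := h1
        obtain ⟨u, hu⟩ := hφ (-a)
        refine ⟨⟨(u, v), ?_⟩, rfl⟩
        rw [LinearMap.mem_ker, hΦ, hu, map_neg, ha, neg_add_cancel]
      · ext ⟨⟨u, v⟩, huv⟩
        rw [LinearMap.mem_range, LinearMap.mem_ker]
        constructor
        · rintro ⟨⟨w, hw⟩, hw2⟩
          have h1 := congrArg (fun z => (z.1 : (Fin (f 0) → R) × (Fin (g 0) → R)).2) hw2
          apply Subtype.ext
          exact h1.symm
        · intro h
          have hv : v = 0 := congrArg Subtype.val h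
          subst hv
          rw [LinearMap.mem_ker, hΦ, map_zero, add_zero] at huv
          have hu : φ u = 0 := hi (by rw [huv, map_zero])
          exact ⟨⟨u, hu⟩, rfl⟩

/-- version for a submodule and its quotient -/
theorem UB.ext_quot {n : ℕ} {f g : ℕ → ℕ} {B : Type} [AddCommGroup B] [Module R B]
    (A : Submodule R B) (hA : UB R n f A) (hC : UB R n g (B ⧸ A)) :
    UB R n (fun k => f k + g k) B :=
  UB.horseshoe A.subtype A.mkQ (Subtype.val_injective) (Submodule.mkQ_surjective A)
    (by rw [Submodule.range_subtype, Submodule.ker_mkQ]) hA hC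

end Pool.Agent.Lib_ae0d71
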