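import Pool.Agent.Lib_ae0d71.Chain

set_option autoImplicit false
set_option linter.unusedSectionVars false
set_option linter.unusedVariables false

namespace Pool.Agent.Lib_ae0d71

open Function IsLocalRing

namespace A14

/-- the second module -/
noncomputable def X : Submodule A14 (Fin 2 → A14) := LinearMap.ker psi

theorem mem_X (w : Fin 2 → A14) : w ∈ X ↔
    w 0 0 = 0 ∧ w 0 1 = 0 ∧ w 0 2 = w 1 4 ∧ w 0 3 = w 1 1 ∧ w 0 4 = 0 ∧ w 0 5 = 0 ∧ w 0 6 = 0 ∧
    w 1 0 = 0 ∧ w 1 2 = 0 ∧ w 1 3 = 0 ∧ w 1 5 = 0 ∧ w 1 6 = 0 ∧ w 1 7 = - w 0 10 ∧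
    w 0 8 = - 2 * w 1 9 := by
  constructor
  · intro hw
    have hw : psi w = 0 := hw
    have hA : ∀ i, (e 4 * w 0 + e 1 * w 1) i = 0 := fun i => by
      have := congrFun hw 0
      rw [psi_0] at this
      rw [this]; rfl
    have hB : ∀ i, (e 2 * w 0 + ((2 : ℚ) • e 3) * w 1) i = 0 := fun i => by
      have := congrFun hw 1
      rw [psi_1] at this
      rw [this]; rfl
    have a1 := hA 1
    have a4 := hA 4
    have a7 := hA 7
    have a8 := hA 8
    have a9 := hA 9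
    have a10 := hA 10
    have a11 := hA 11
    have a12 := hA 12
    have a13 := hA 13
    have b7 := hB 7
    have b8 := hB 8
    have b9 := hB 9
    have b10 := hB 10
    have b11 := hB 11
    have b12 := hB 12
    have b13 := hB 13
    simp [e_ap] at a1 a4 a7 a8 a9 a10 a11 a12 a13 b7 b8 b9 b10 b11 b12 b13
    refine ⟨?_, ?_, ?_, ?_, ?_, ?_, ?_, ?_, ?_, ?_, ?_, ?_, ?_, ?_⟩ <;> linarith
  · rintro ⟨h0, h1, h2, h3, h4, h5, h6, g0, g2, g3, g5, g6, g7, h8⟩
    show psi w = 0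
    funext i
    fin_cases i
    · show e 4 * w 0 + e 1 * w 1 = 0
      apply ext14 <;> simp [e_ap, h0, h1, h2, h3, h4, h5, h6, g0, g2, g3, g5, g6, g7, h8]
    · show e 2 * w 0 + ((2 : ℚ) • e 3) * w 1 = 0
      apply ext14 <;> simp [e_ap, h0, h1, h2, h3, h4, h5, h6, g0, g2, g3, g5, g6, g7, h8]

theorem finrank_X : Module.finrank ℚ X ≤ 14 := by
  let T : X →ₗ[ℚ] (Fin 14 → ℚ) :=
    { toFun := fun w => ![w.1 1 1, w.1 1 4, w.1 0 7, w.1 0 8, w.1 0 9, w.1 0 10, w.1 0 11, w.1 0 12,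
        w.1 0 13, w.1 1 8, w.1 1 10, w.1 1 11, w.1 1 12, w.1 1 13]
      map_add' := by
        intro p q
        funext i
        fin_cases i <;> rfl
      map_smul' := by
        intro c p
        funext i
        fin_cases i <;> rfl }
  have hT : Injective T := by
    rintro ⟨w, hw⟩ ⟨w', hw'⟩ h
    apply Subtype.ext
    rw [mem_X] at hw hw'
    obtain ⟨h0, h1, h2, h3, h4, h5, h6, g0, g2, g3, g5, g6, g7, h8⟩ := hw
    obtain ⟨h0', h1', h2', h3', h4', h5', h6', g0', g2', g3', g5', g6', g7', h8'⟩ := hw'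
    have t0 : w 1 1 = w' 1 1 := congrFun h 0
    have t1 : w 1 4 = w' 1 4 := congrFun h 1
    have t2 : w 0 7 = w' 0 7 := congrFun h 2
    have t3 : w 0 8 = w' 0 8 := congrFun h 3
    have t4 : w 0 9 = w' 0 9 := congrFun h 4
    have t5 : w 0 10 = w' 0 10 := congrFun h 5
    have t6 : w 0 11 = w' 0 11 := congrFun h 6
    have t7 : w 0 12 = w' 0 12 := congrFun h 7
    have t8 : w 0 13 = w' 0 13 := congrFun h 8
    have t9 : w 1 8 = w' 1 8 := congrFun h 9
    have t10 : w 1 10 = w' 1 10 := congrFun h 10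
    have t11 : w 1 11 = w' 1 11 := congrFun h 11
    have t12 : w 1 12 = w' 1 12 := congrFun h 12
    have t13 : w 1 13 = w' 1 13 := congrFun h 13
    show w = w'
    funext i
    fin_cases i
    · show w 0 = w' 0
      apply ext14 <;> linarith
    · show w 1 = w' 1
      apply ext14 <;> linarith
  have := LinearMap.finrank_le_finrank_of_injective hT
  rwa [Module.finrank_fin_fun] at this

/-- functional detecting the minimal generators -/
noncomputable def Lam : X →ₗ[ℚ] (Fin 3 → ℚ) where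
  toFun w := ![w.1 1 4, w.1 1 1, w.1 0 12 + w.1 1 10]
  map_add' := by
    intro p q
    funext i
    fin_cases i
    · rfl
    · rfl
    · show (p.1 0 12 + q.1 0 12) + (p.1 1 10 + q.1 1 10) = _
      show _ = (p.1 0 12 + p.1 1 10) + (q.1 0 12 + q.1 1 10)
      ring
  map_smul' := by
    intro c p
    funext i
    fin_cases i
    · rfl
    · rfl
    · show c * p.1 0 12 + c * p.1 1 10 = c * (p.1 0 12 + p.1 1 10)
      ring

theorem Lam_smul (r : A14) (w : X) : Lam (r • w) = r 0 • Lam w := by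
  obtain ⟨w, hw⟩ := w
  rw [mem_X] at hw
  obtain ⟨h0, h1, h2, h3, h4, h5, h6, g0, g2, g3, g5, g6, g7, h8⟩ := hw
  funext i
  fin_cases i
  · show (r * w 1) 4 = r 0 * w 1 4
    simp [g0]
  · show (r * w 1) 1 = r 0 * w 1 1
    simp [g0]
  · show (r * w 0) 12 + (r * w 1) 10 = r 0 * (w 0 12 + w 1 10)
    simp [h0, h1, h2, h3, h4, h5, h6, g0, g2, g3, g5, g6, g7, h8]
    ring

theorem Lam_surj : Surjective Lam := by
  intro v
  let w : Fin 2 → A14 := ![v 0 • e 2 + v 1 • e 3 + v 2 • e 12, v 0 • e 4 + v 1 • e 1]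
  have hw : w ∈ X := by
    rw [mem_X]
    refine ⟨?_, ?_, ?_, ?_, ?_, ?_, ?_, ?_, ?_, ?_, ?_, ?_, ?_, ?_⟩ <;> simp [w, e_ap]
  refine ⟨⟨w, hw⟩, ?_⟩
  funext i
  fin_cases i
  · show (v 0 • e 4 + v 1 • e 1) 4 = v 0
    simp [e_ap]
  · show (v 0 • e 4 + v 1 • e 1) 1 = v 1
    simp [e_ap]
  · show (v 0 • e 2 + v 1 • e 3 + v 2 • e 12) 12 + (v 0 • e 4 + v 1 • e 1) 10 = v 2
    simp [e_ap]

theorem rank_zero (P : MinRes A14 X) : 3 ≤ P.rank 0 := by
  let κ : (Fin (P.rank 0) → ℚ) →ₗ[ℚ] (Fin 3 → ℚ) :=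
    Lam ∘ₗ (P.aug.restrictScalars ℚ) ∘ₗ
      (LinearMap.pi (fun j => (Algebra.linearMap ℚ A14) ∘ₗ LinearMap.proj j))
  have hκ : ∀ c, κ c = Lam (P.aug (fun j => algebraMap ℚ A14 (c j))) := fun c => rfl
  have hs : Surjective κ := by
    intro v
    obtain ⟨w, hw⟩ := Lam_surj v
    obtain ⟨r, hr⟩ := P.surj w
    refine ⟨fun j => r j 0, ?_⟩
    rw [← hw, ← hr, hκ]
    have key : ∀ s : Fin (P.rank 0) → A14, Lam (P.aug s) =
        ∑ j, s j 0 • Lam (P.aug (Pi.single j 1)) := by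
      intro s
      have h3 : s = ∑ j, s j • (Pi.single j (1 : A14) : Fin (P.rank 0) → A14) := by
        funext k
        rw [Finset.sum_apply, Finset.sum_eq_single k]
        · simp
        · intro j _ hij
          simp [Pi.single_eq_of_ne (Ne.symm hij)]
        · intro h; exact absurd (Finset.mem_univ k) h
      conv_lhs => rw [h3]
      rw [map_sum, map_sum]
      refine Finset.sum_congr rfl (fun j _ => ?_)
      rw [map_smul, Lam_smul]
    rw [key, key]
    refine Finset.sum_congr rfl (fun j _ => ?_)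
    rw [algebraMap_0]
  have := LinearMap.finrank_le_finrank_of_surjective hs
  rwa [Module.finrank_fin_fun, Module.finrank_fin_fun] at this

theorem X_growth (P : MinRes A14 X) (n : ℕ) : 3 * 2 ^ n ≤ P.rank n :=
  (growth (K := ℚ) P N2 hm hres finrank_A14 finrank_N2 finrank_X (rank_zero P) n).1

end A14

end Pool.Agent.Lib_ae0d71
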